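import Pool.Agent.Helper122_SFP.Pieces2

/-!
# The chain of pieces
-/

set_option autoImplicit false
set_option linter.unusedSectionVars false
set_option linter.unusedVariables false

namespace Helper122.SFP

open Finset

/-- Gluing two vertex sets along two pairs of vertices. -/
theorem glue {V U : Type} [Fintype V] [DecidableEq V] [Fintype U] [DecidableEq U] (z y : V)
    (z' y' : U) (hzy : z ≠ y) (hzy' : z' ≠ y') :
    ∃ (X : Type) (_ : Fintype X) (_ : DecidableEq X) (α : V ↪ X) (φ : U ↪ X),
      φ z' = α z ∧ φ y' = α y ∧ (∀ v u, φ u = α v → (u = z' ∧ v = z) ∨ (u = y' ∧ v = y)) ∧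
      ∀ x, (∃ v, α v = x) ∨ ∃ u, φ u = x := by
  classical
  refine ⟨V ⊕ {u : U // u ≠ z' ∧ u ≠ y'}, inferInstance, inferInstance,
    Function.Embedding.inl, ⟨fun u => if hz : u = z' then Sum.inl z else
      if hy : u = y' then Sum.inl y else Sum.inr ⟨u, hz, hy⟩, ?_⟩, ?_, ?_, ?_, ?_⟩
  · intro u w h
    by_cases hu1 : u = z' <;> by_cases hw1 : w = z' <;> by_cases hu2 : u = y' <;>
      by_cases hw2 : w = y' <;> simp_all
  · simp
  · simp [hzy'.symm]
  · intro v u h
    by_cases hu1 : u = z'
    · left
      simp [hu1] at h
      exact ⟨hu1, h.symm⟩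
    · by_cases hu2 : u = y'
      · right
        simp [hu2, hzy'.symm] at h
        exact ⟨hu2, h.symm⟩
      · simp [hu1, hu2] at h
  · rintro (v | ⟨u, hz, hy⟩)
    · exact Or.inl ⟨v, rfl⟩
    · refine Or.inr ⟨u, ?_⟩
      simp [hz, hy]

/-- Upper bound property of a structure with two ports. -/
def Up3 {V : Type} [DecidableEq V] (s q r : ℕ) (G : SimpleGraph V) (z y : V) : Prop :=
  ∀ b t : ℕ, t ≤ b → s * b ≤ q * t →
    Win G (fun v => if v = z then b + r * t / s else if v = y then b else 3 * b + t)
      (fun _ => b)

/-- Lower bound property of a structure with two ports. -/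
def Lo3 {V : Type} (i κ : ℕ) (G : SimpleGraph V) (z y : V) : Prop :=
  ∀ (L : Finset ℕ) (b : ℕ) (C : V → Finset ℕ), Col G L b C →
    (3 * κ + i + 1) * b ≤ (C z ∪ C y).card + κ * L.card

theorem win_bot {V : Type} [DecidableEq V] [Fintype V] (g h : V → ℕ) (hh : ∀ v, h v ≤ g v) :
    Win (⊥ : SimpleGraph V) g h := by
  refine win_of_closed (fun g h => ∀ v, h v ≤ g v) ?_ g h hh
  intro g h hh
  right
  refine ⟨hh, ?_⟩
  intro M hne hpos
  refine ⟨M, Finset.Subset.refl _, ?_, ?_⟩
  · intro u hu v hv huv hadj
    exact hadj
  · intro v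
    have h4 := hh v
    by_cases hv : v ∈ M
    · simp only [if_pos hv]
      omega
    · simp only [if_neg hv]
      exact h4

theorem base3_up (s q : ℕ) : Up3 s q 0 (⊥ : SimpleGraph (Fin 2)) 0 1 := by
  intro b t _ _
  refine win_bot _ _ ?_
  intro v
  rw [Nat.zero_mul, Nat.zero_div]
  split_ifs <;> omega

theorem base3_lo : Lo3 0 0 (⊥ : SimpleGraph (Fin 2)) 0 1 := by
  intro L b C hC
  have h := (hC.1 0).2
  have h1 := Finset.card_le_card (Finset.subset_union_left (s₁ := C 0) (s₂ := C 1))
  omega

/-- The graph obtained by gluing. -/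
def glueG {V U X : Type} (G : SimpleGraph V) (H : SimpleGraph U) (α : V ↪ X) (φ : U ↪ X) :
    SimpleGraph X := H.map φ ⊔ G.map α

theorem glue_col {V U X : Type} {G : SimpleGraph V} {H : SimpleGraph U} {α : V ↪ X}
    {φ : U ↪ X} {L : Finset ℕ} {b : ℕ} {C : X → Finset ℕ} (hC : Col (glueG G H α φ) L b C) :
    Col G L b (fun v => C (α v)) ∧ Col H L b (fun u => C (φ u)) := by
  refine ⟨⟨fun v => hC.1 _, ?_⟩, ⟨fun v => hC.1 _, ?_⟩⟩
  · intro u v huv
    refine hC.2 _ _ (Or.inr ?_)
    rw [SimpleGraph.map_adj]
    exact ⟨u, v, huv, rfl, rfl⟩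
  · intro u v huv
    refine hC.2 _ _ (Or.inl ?_)
    rw [SimpleGraph.map_adj]
    exact ⟨u, v, huv, rfl, rfl⟩

/-- One level. -/
theorem level_step {s q r r' n i κ : ℕ} (hs : 0 < s) (hr : r ≤ s) (hr' : r' ≤ s)
    (hres : s * (n + 1) + r' = r + q)
    (h : ∃ (V : Type) (_ : Fintype V) (_ : DecidableEq V) (G : SimpleGraph V) (z y : V),
        z ≠ y ∧ Up3 s q r G z y ∧ Lo3 i κ G z y) :
    ∃ (V : Type) (_ : Fintype V) (_ : DecidableEq V) (G : SimpleGraph V) (z y : V),
        z ≠ y ∧ Up3 s q r' G z y ∧ Lo3 (i + 1) (κ + (n + 1)) G z y := by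
  classical
  obtain ⟨V, _, _, G, z, y, hzy, hU, hL⟩ := h
  obtain ⟨U, _, _, H, z', y', p, l, hzy', hpz, hpy, hlz, hly, hpl, hHup, hHlo⟩ := pieceR n
  obtain ⟨X, _, _, α, φ, hφz, hφy, hφα, hcov⟩ := glue z y z' y' hzy hzy'
  have hnp : ∀ v, α v ≠ φ p := by
    intro v hv
    rcases hφα v p hv.symm with h | h
    · exact hpz h.1
    · exact hpy h.1
  have hnl : ∀ v, α v ≠ φ l := by
    intro v hv
    rcases hφα v l hv.symm with h | h
    · exact hlz h.1
    · exact hly h.1
  refine ⟨X, inferInstance, inferInstance, glueG G H α φ, φ p, φ l,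
    fun h => hpl (φ.injective h), ?_, ?_⟩
  · intro b t htb hbt
    have hin := hU b t htb hbt
    set δ := r' * t / s with hδ
    set δ' := r * t / s with hδ'
    have hδt : δ ≤ t := by
      rw [hδ]
      refine Nat.div_le_of_le_mul ?_
      exact Nat.mul_le_mul_right t hr'
    have hδt' : δ' ≤ t := by
      rw [hδ']
      refine Nat.div_le_of_le_mul ?_
      exact Nat.mul_le_mul_right t hr
    have hkey : b + δ' ≤ (n + 1) * t + δ := by
      have h1 : (b + δ') * s ≤ (r + q) * t := by
        have h2 : δ' * s ≤ r * t := Nat.div_mul_le_self _ _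
        nlinarith
      have h3 : (n + 1) * t + δ = (r + q) * t / s := by
        have h4 : (r + q) * t = r' * t + s * ((n + 1) * t) := by
          rw [← hres]
          ring
        rw [h4, Nat.add_mul_div_left _ _ hs, ← hδ, add_comm]
      rw [h3]
      exact (Nat.le_div_iff_mul_le hs).2 h1
    refine win_comp (D := fun x => if x = α z then b + δ' else if x = α y then b else
      if (∃ v, α v = x) then 3 * b + t else b) ?_ ?_
    · refine win_map _ ?_ ?_
      · refine win_mono (hHup b t δ δ' htb hδt hδt' hkey) le_rfl ?_ ?_
        · intro u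
          simp only [φ.injective.eq_iff]
          exact le_rfl
        · intro u
          by_cases hu1 : u = z'
          · rw [hu1, hφz]
            simp
          · have h1 : φ u ≠ α z := by
              rw [← hφz]
              exact fun h => hu1 (φ.injective h)
            by_cases hu2 : u = y'
            · rw [hu2, hφy]
              simp [hzy.symm, hzy'.symm]
            · have h2 : φ u ≠ α y := by
                rw [← hφy]
                exact fun h => hu2 (φ.injective h)
              have h3 : ¬ ∃ v, α v = φ u := by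
                rintro ⟨v, hv⟩
                rcases hφα v u hv.symm with h | h
                · exact hu1 h.1
                · exact hu2 h.1
              simp only [if_neg h1, if_neg h2, if_neg h3, if_neg hu1]
              exact le_rfl
      · intro x hx
        have h1 : x ≠ α z := by
          rintro rfl
          exact hx ⟨z', hφz⟩
        have h2 : x ≠ α y := by
          rintro rfl
          exact hx ⟨y', hφy⟩
        have h3 : x ≠ φ p := by
          rintro rfl
          exact hx ⟨p, rfl⟩
        have h4 : x ≠ φ l := by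
          rintro rfl
          exact hx ⟨l, rfl⟩
        have h5 : ∃ v, α v = x := by
          rcases hcov x with h | h
          · exact h
          · exact absurd h hx
        simp only [if_neg h1, if_neg h2, if_neg h3, if_neg h4, if_pos h5]
        exact le_rfl
    · refine win_map _ ?_ ?_
      · refine win_mono hin le_rfl ?_ (fun _ => le_rfl)
        intro v
        have h5 : ∃ v', α v' = α v := ⟨v, rfl⟩
        simp only [α.injective.eq_iff]
        simp
      · intro x hx
        have h1 : x ≠ α z := by
          rintro rfl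
          exact hx ⟨z, rfl⟩
        have h2 : x ≠ α y := by
          rintro rfl
          exact hx ⟨y, rfl⟩
        simp only [if_neg h1, if_neg h2]
        split_ifs <;> omega
  · intro L b C hC
    obtain ⟨h1, h2⟩ := glue_col hC
    have h3 := hL L b _ h1
    have h4 := hHlo L b _ h2
    rw [hφz, hφy] at h4
    have e1 : (3 * (κ + (n + 1)) + (i + 1) + 1) * b = (3 * κ + i + 1) * b + (3 * n + 4) * b := by
      ring
    have e2 : (κ + (n + 1)) * L.card = κ * L.card + (n + 1) * L.card := by ring
    rw [e1, e2]
    omega

theorem levels3 (s q : ℕ) (hs : 0 < s) (hsq : s < q) (i : ℕ) :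
    ∃ κ r : ℕ, r ≤ s ∧ s * κ + r = i * q ∧
      ∃ (V : Type) (_ : Fintype V) (_ : DecidableEq V) (G : SimpleGraph V) (z y : V),
        z ≠ y ∧ Up3 s q r G z y ∧ Lo3 i κ G z y := by
  induction i with
  | zero =>
    exact ⟨0, 0, by omega, by omega, Fin 2, inferInstance, inferInstance, ⊥, 0, 1, by decide,
      base3_up s q, base3_lo⟩
  | succ i ih =>
    obtain ⟨κ, r, hr, hκ, hex⟩ := ih
    have h0 : s ≤ r + q - 1 := by omega
    have h1 : 1 ≤ (r + q - 1) / s := (Nat.one_le_div_iff hs).2 h0
    have h2 : s * ((r + q - 1) / s) + (r + q - 1) % s = r + q - 1 := Nat.div_add_mod _ _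
    have h3 : (r + q - 1) % s < s := Nat.mod_lt _ hs
    obtain ⟨n, hn⟩ := Nat.exists_eq_add_of_le h1
    have hn' : (r + q - 1) / s = n + 1 := by omega
    rw [hn'] at h2
    refine ⟨κ + (n + 1), (r + q - 1) % s + 1, by omega, ?_, ?_⟩
    · have e1 : s * (κ + (n + 1)) = s * κ + s * (n + 1) := by ring
      have e2 : (i + 1) * q = i * q + q := by ring
      rw [e1, e2]
      omega
    · exact level_step hs hr (by omega) (by omega) hex

/-- The exact value `3 + s / q`. -/
theorem exists_full_three (s q : ℕ) (hs : 0 < s) (hsq : s < q) :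
    ∃ (V : Type) (_ : Fintype V) (_ : DecidableEq V) (G : SimpleGraph V),
      Full (3 * q + s) q G := by
  classical
  obtain ⟨κ, r, hr, hκ, V, _, _, G, z, y, hzy, hU, hL⟩ := levels3 s q hs hsq (s - 1)
  have h1 : s - 1 + 1 = s := by omega
  have h2 : s * κ + (r + q) = s * q := by
    have h3 : s * q = (s - 1) * q + q := by
      conv_lhs => rw [← h1]
      ring
    rw [h3, ← hκ]
    ring
  have h3 : κ < q := by
    by_contra hcon
    have h4 : s * q ≤ s * κ := Nat.mul_le_mul_left s (Nat.not_lt.1 hcon)
    omega
  obtain ⟨n, hn⟩ := Nat.exists_eq_add_of_lt h3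
  have h4 : r + q = s * (n + 1) := by
    have h5 : s * q = s * κ + s * (n + 1) := by
      conv_lhs => rw [hn]
      ring
    omega
  obtain ⟨U, _, _, H, z', y', hzy', hHup, hHlo⟩ := pieceS n
  obtain ⟨X, _, _, α, φ, hφz, hφy, hφα, hcov⟩ := glue z y z' y' hzy hzy'
  refine ⟨X, inferInstance, inferInstance, glueG G H α φ, ?_, ?_⟩
  · have main : ∀ b t : ℕ, t ≤ b → s * b ≤ q * t →
        Win (glueG G H α φ) (fun _ => 3 * b + t) (fun _ => b) := by
      intro b t htb hbt
      have hin := hU b t htb hbt
      set δ' := r * t / s with hδ'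
      have hδt' : δ' ≤ t := by
        rw [hδ']
        refine Nat.div_le_of_le_mul ?_
        exact Nat.mul_le_mul_right t hr
      have hkey : b + δ' ≤ (n + 1) * t := by
        have h1 : (b + δ') * s ≤ (n + 1) * t * s := by
          have h2 : δ' * s ≤ r * t := Nat.div_mul_le_self _ _
          have h3 : (r + q) * t = s * (n + 1) * t := by rw [h4]
          nlinarith
        exact Nat.le_of_mul_le_mul_right h1 hs
      refine win_comp (D := fun x => if x = α z then b + δ' else if x = α y then b else
        if (∃ v, α v = x) then 3 * b + t else b) ?_ ?_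
      · refine win_map _ ?_ ?_
        · refine win_mono (hHup b t δ' htb hδt' hkey) le_rfl ?_ ?_
          · intro u
            exact le_rfl
          · intro u
            by_cases hu1 : u = z'
            · rw [hu1, hφz]
              simp
            · have h1 : φ u ≠ α z := by
                rw [← hφz]
                exact fun h => hu1 (φ.injective h)
              by_cases hu2 : u = y'
              · rw [hu2, hφy]
                simp [hzy.symm, hzy'.symm]
              · have h2 : φ u ≠ α y := by
                  rw [← hφy]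
                  exact fun h => hu2 (φ.injective h)
                have h3 : ¬ ∃ v, α v = φ u := by
                  rintro ⟨v, hv⟩
                  rcases hφα v u hv.symm with h | h
                  · exact hu1 h.1
                  · exact hu2 h.1
                simp only [if_neg h1, if_neg h2, if_neg h3, if_neg hu1]
                exact le_rfl
        · intro x hx
          have h1 : x ≠ α z := by
            rintro rfl
            exact hx ⟨z', hφz⟩
          have h2 : x ≠ α y := by
            rintro rfl
            exact hx ⟨y', hφy⟩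
          have h5 : ∃ v, α v = x := by
            rcases hcov x with h | h
            · exact h
            · exact absurd h hx
          simp only [if_neg h1, if_neg h2, if_pos h5]
          exact le_rfl
      · refine win_map _ ?_ ?_
        · refine win_mono hin le_rfl ?_ (fun _ => le_rfl)
          intro v
          have h5 : ∃ v', α v' = α v := ⟨v, rfl⟩
          simp only [α.injective.eq_iff]
          simp
        · intro x hx
          have h1 : x ≠ α z := by
            rintro rfl
            exact hx ⟨z, rfl⟩
          have h2 : x ≠ α y := by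
            rintro rfl
            exact hx ⟨y, rfl⟩
          simp only [if_neg h1, if_neg h2]
          split_ifs <;> omega
    intro a b hab
    have hq : 0 < q := by omega
    have ha : 3 * b ≤ a := by
      refine Nat.le_of_mul_le_mul_left ?_ hq
      have h3 : (3 * q + s) * b = q * (3 * b) + s * b := by ring
      omega
    obtain ⟨t, rfl⟩ := Nat.exists_eq_add_of_le ha
    have hst : s * b ≤ q * t := by
      have h3 : (3 * q + s) * b = q * (3 * b) + s * b := by ring
      have h4 : q * (3 * b + t) = q * (3 * b) + q * t := by ring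
      omega
    rcases le_total t b with htb | htb
    · exact main b t htb hst
    · refine win_mono (main b b le_rfl (Nat.mul_le_mul_right b hsq.le)) le_rfl ?_
        (fun _ => le_rfl)
      intro v
      omega
  · intro L b C hC
    obtain ⟨h5, h6⟩ := glue_col hC
    have h7 := hL L b _ h5
    have h8 := hHlo L b _ h6
    rw [hφz, hφy] at h8
    have e1 : (3 * q + s) * b = (3 * κ + (s - 1) + 1) * b + (3 * n + 3) * b := by
      have : 3 * q + s = (3 * κ + (s - 1) + 1) + (3 * n + 3) := by omega
      rw [this]
      ring
    have e2 : q * L.card = κ * L.card + (n + 1) * L.card := by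
      have : q = κ + (n + 1) := by omega
      rw [this]
      ring
    rw [e1, e2]
    omega

end Helper122.SFP
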