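import Pool.Agent.Helper122_SFP.Levels

/-!
# Assembly: all levels, joins, transfer to `Fin n`, infimum
-/

set_option autoImplicit false
set_option linter.unusedSectionVars false
set_option linter.unusedVariables false

namespace Helper122.SFP

open Finset

theorem levels (s q : ℕ) (hs : 0 < s) (hsq : s < q) (hq : q < 2 * s) (i : ℕ) :
    ∃ κ r : ℕ, 1 ≤ r ∧ r ≤ s ∧ s * κ + r = (i + 1) * q ∧
      ∃ (V : Type) (_ : Fintype V) (_ : DecidableEq V) (G : SimpleGraph V) (z y : V),
        z ≠ y ∧ Up s q r G z y ∧ Lo (i + 1) κ G z y := by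
  induction i with
  | zero =>
    refine ⟨1, q - s, by omega, by omega, by omega, Fin 4, inferInstance, inferInstance,
      gOf 4 edgesA, 0, 3, by decide, baseUp s q hs hsq, baseLo⟩
  | succ i ih =>
    obtain ⟨κ, r, hr1, hrs, hκ, V, _, _, G, z, y, hzy, hU, hL⟩ := ih
    have hmul : (i + 1 + 1) * q = (i + 1) * q + q := by ring
    by_cases h : r + (q - s) ≤ s
    · refine ⟨κ + 1, r + (q - s), by omega, h, ?_, V ⊕ Fin 3, inferInstance, inferInstance,
        stepB G z y hzy, Sum.inr 2, Sum.inr 0, by simp, stepB_up hs hsq hq h hzy hU,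
        stepB_lo hzy hL⟩
      rw [hmul, ← hκ, Nat.mul_add]
      omega
    · refine ⟨κ + 2, r + (q - s) - s, by omega, by omega, ?_, V ⊕ Fin 5, inferInstance,
        inferInstance, stepC G z y hzy, Sum.inr 4, Sum.inr 0, by simp,
        stepC_up hs hsq hq (Nat.not_le.1 h) hrs hzy hU, stepC_lo hzy hL⟩
      rw [hmul, ← hκ, Nat.mul_add]
      omega

theorem exists_full_two (s q : ℕ) (hsq : s < q) (hq : q < 2 * s) :
    ∃ (V : Type) (_ : Fintype V) (_ : DecidableEq V) (G : SimpleGraph V),
      Full (2 * q + s) q G := by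
  have hs : 0 < s := by omega
  obtain ⟨κ, r, hr1, hrs, hκ, V, _, _, G, z, y, hzy, hU, hL⟩ := levels s q hs hsq hq (s - 2)
  have h1 : s - 2 + 1 + 1 = s := by omega
  have h2 : s * κ + (r + q) = s * q := by
    have h3 : s * q = (s - 2 + 1) * q + q := by
      conv_lhs => rw [← h1]
      ring
    rw [h3, ← hκ]
    ring
  have h3 : κ < q := by
    by_contra hcon
    have h4 : s * q ≤ s * κ := Nat.mul_le_mul_left s (Nat.not_lt.1 hcon)
    omega
  obtain ⟨k, hk⟩ := Nat.exists_eq_add_of_lt h3
  have h4 : r + q = s * (k + 1) := by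
    have h5 : s * q = s * κ + s * (k + 1) := by
      rw [hk]
      ring
    omega
  have h5 : k = 1 := by
    have h6 : k < 2 := by
      by_contra hcon
      have h7 : s * 3 ≤ s * (k + 1) := Nat.mul_le_mul_left s (by omega)
      omega
    have h7 : k ≠ 0 := by
      rintro rfl
      omega
    omega
  subst h5
  exact ⟨V ⊕ Fin 4, inferInstance, inferInstance, stepT G z y hzy,
    stepT_full hs hsq hq (by omega) (by omega) h1 hzy hU hL⟩

/-! ### Adding an apex -/

section

variable {V : Type} [DecidableEq V] [Fintype V]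

/-- The star on `Option V` with centre `none`. -/
def star (V : Type) : SimpleGraph (Option V) :=
  SimpleGraph.fromRel (fun u _ => u = none)

/-- Join with one vertex. -/
def apex (G : SimpleGraph V) : SimpleGraph (Option V) :=
  star V ⊔ G.map (Function.Embedding.some : V ↪ Option V)

theorem star_win (g h : Option V → ℕ) (h1 : h none ≤ g none)
    (h2 : ∀ v, h (some v) + h none ≤ g (some v)) : Win (star V) g h := by
  refine win_of_closed (fun g h => h none ≤ g none ∧ ∀ v, h (some v) + h none ≤ g (some v))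
    ?_ g h ⟨h1, h2⟩
  clear h1 h2 g h
  rintro g h ⟨h1, h2⟩
  right
  refine ⟨?_, ?_⟩
  · rintro (_ | v)
    · exact h1
    · have := h2 v
      omega
  · intro M hne hpos
    by_cases hM : none ∈ M
    · have h3 := hpos none hM
      refine ⟨{none}, by simpa using hM, by simp, ?_, ?_⟩
      · simp only [if_pos hM, Finset.mem_singleton, if_true]
        omega
      · intro v
        have h4 := h2 v
        simp only [Finset.mem_singleton, reduceCtorEq, if_false, if_true]
        split_ifs <;> omega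
    · refine ⟨M, Finset.Subset.refl _, ?_, ?_, ?_⟩
      · intro u hu v hv huv hadj
        rw [star, SimpleGraph.fromRel_adj] at hadj
        rcases hadj.2 with h5 | h5
        · exact hM (h5 ▸ Finset.mem_coe.1 hu)
        · exact hM (h5 ▸ Finset.mem_coe.1 hv)
      · simp only [if_neg hM]
        exact h1
      · intro v
        have h4 := h2 v
        simp only [if_neg hM]
        by_cases hv : some v ∈ M
        · have h5 := hpos _ hv
          simp only [if_pos hv]
          omega
        · simp only [if_neg hv]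
          exact h4

theorem apex_full {p q : ℕ} (hq : 0 < q) {G : SimpleGraph V} (hG : Full p q G) :
    Full (p + q) q (apex G) := by
  constructor
  · intro a b hab
    have h0 : (p + q) * b = p * b + q * b := by ring
    have h1 : b ≤ a := by
      refine Nat.le_of_mul_le_mul_left ?_ hq
      omega
    have h2 : p * b ≤ q * (a - b) := by
      rw [Nat.mul_sub]
      omega
    refine win_comp (D := fun v => Option.elim v b (fun _ => a - b)) ?_ ?_
    · refine star_win _ _ ?_ ?_
      · exact h1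
      · intro v
        simp only [Option.elim]
        omega
    · refine win_map _ ?_ ?_
      · exact hG.1 (a - b) b h2
      · rintro (_ | v) hv
        · simp
        · exact absurd ⟨v, rfl⟩ hv
  · intro L b C hC
    obtain ⟨hsub, hdis⟩ := hC
    have h1 := hG.2 (L \ C none) b (fun v => C (some v)) ⟨?_, ?_⟩
    · rw [Finset.card_sdiff_of_subset (hsub none).1, (hsub none).2, Nat.mul_sub] at h1
      have h2 : b ≤ L.card := by
        rw [← (hsub none).2]
        exact Finset.card_le_card (hsub none).1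
      have h3 : q * b ≤ q * L.card := Nat.mul_le_mul_left q h2
      have h4 : (p + q) * b = p * b + q * b := by ring
      omega
    · intro v
      refine ⟨?_, (hsub _).2⟩
      have h2 : Disjoint (C none) (C (some v)) := by
        refine hdis _ _ (Or.inl ?_)
        rw [star, SimpleGraph.fromRel_adj]
        exact ⟨by simp, Or.inl rfl⟩
      intro c hc
      rw [Finset.mem_sdiff]
      exact ⟨(hsub _).1 hc, fun h3 => (Finset.disjoint_left.1 h2) h3 hc⟩
    · intro u v huv
      refine hdis _ _ (Or.inr ?_)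
      rw [SimpleGraph.map_adj]
      exact ⟨u, v, huv, rfl, rfl⟩

end

theorem exists_full (s q k : ℕ) (hsq : s < q) (hq : q < 2 * s) :
    ∃ (V : Type) (_ : Fintype V) (_ : DecidableEq V) (G : SimpleGraph V),
      Full (2 * q + s + k * q) q G := by
  induction k with
  | zero =>
    obtain ⟨V, i1, i2, G, hG⟩ := exists_full_two s q hsq hq
    exact ⟨V, i1, i2, G, by simpa using hG⟩
  | succ k ih =>
    obtain ⟨V, i1, i2, G, hG⟩ := ih
    have h := apex_full (by omega) hG
    have he : 2 * q + s + (k + 1) * q = 2 * q + s + k * q + q := by ring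
    exact ⟨Option V, inferInstance, inferInstance, apex G, by rw [he]; exact h⟩

theorem exists_full_fin {p q : ℕ} (h : ∃ (V : Type) (_ : Fintype V) (_ : DecidableEq V)
    (G : SimpleGraph V), Full p q G) : ∃ (n : ℕ) (G : SimpleGraph (Fin n)), Full p q G := by
  obtain ⟨V, i1, i2, G, hG⟩ := h
  let e : V ≃ Fin (Fintype.card V) := Fintype.equivFin V
  refine ⟨Fintype.card V, G.map e.toEmbedding, ?_, ?_⟩
  · intro a b hab
    refine win_map _ ?_ ?_
    · exact hG.1 a b hab
    · intro v hv
      exact absurd ⟨e.symm v, by simp⟩ hv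
  · intro L b C hC
    refine hG.2 L b (fun v => C (e v)) ⟨fun v => hC.1 _, ?_⟩
    intro u v huv
    refine hC.2 _ _ ?_
    rw [SimpleGraph.map_adj]
    exact ⟨u, v, huv, rfl, rfl⟩

/-! ### The infimum -/

theorem sInf_eq_of_threshold {p q : ℕ} (hp : 0 < p) (hq : 0 < q) (P : ℕ → ℕ → Prop)
    (h1 : ∀ a b, p * b ≤ q * a → P a b) (h2 : ∀ a b, P a b → p * b ≤ q * a) :
    sInf {s : ℝ | ∀ a b : ℕ, 0 < b → s ≤ (a : ℝ) / (b : ℝ) → P a b} = (p : ℝ) / (q : ℝ) := by
  have hqR : (0 : ℝ) < (q : ℝ) := by exact_mod_cast hq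
  have hpR : (0 : ℝ) < (p : ℝ) := by exact_mod_cast hp
  have hset : {s : ℝ | ∀ a b : ℕ, 0 < b → s ≤ (a : ℝ) / (b : ℝ) → P a b} =
      Set.Ici ((p : ℝ) / (q : ℝ)) := by
    ext s
    simp only [Set.mem_setOf_eq, Set.mem_Ici]
    constructor
    · intro h
      by_contra hcon
      have hlt : s < (p : ℝ) / (q : ℝ) := not_le.1 hcon
      have hlt' : max s 0 < (p : ℝ) / (q : ℝ) := max_lt hlt (div_pos hpR hqR)
      obtain ⟨x, hx1, hx2⟩ := exists_rat_btwn hlt'
      have hx0 : (0 : ℝ) < (x : ℝ) := lt_of_le_of_lt (le_max_right _ _) hx1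
      have hx0' : (0 : ℚ) < x := by exact_mod_cast hx0
      have hnum : (0 : ℤ) < x.num := Rat.num_pos.2 hx0'
      have hden : 0 < x.den := x.den_pos
      have hxe : (x : ℝ) = ((x.num.toNat : ℕ) : ℝ) / ((x.den : ℕ) : ℝ) := by
        have h3 : ((x.num.toNat : ℕ) : ℤ) = x.num := Int.toNat_of_nonneg hnum.le
        have h4 : (((x.num.toNat : ℕ) : ℤ) : ℝ) = ((x.num : ℤ) : ℝ) := by rw [h3]
        rw [Int.cast_natCast] at h4
        rw [h4]
        exact Rat.cast_def x
      have hs : s ≤ ((x.num.toNat : ℕ) : ℝ) / ((x.den : ℕ) : ℝ) := by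
        rw [← hxe]
        exact (le_max_left _ _).trans hx1.le
      have h5 := h2 _ _ (h _ _ hden hs)
      rw [hxe] at hx2
      have hdR : (0 : ℝ) < ((x.den : ℕ) : ℝ) := by exact_mod_cast hden
      rw [div_lt_div_iff₀ hdR hqR] at hx2
      have h6 : (p : ℝ) * (x.den : ℝ) ≤ (q : ℝ) * (x.num.toNat : ℝ) := by exact_mod_cast h5
      linarith [mul_comm (q : ℝ) (x.num.toNat : ℝ)]
    · intro h a b hb hab
      refine h1 a b ?_
      have hbR : (0 : ℝ) < (b : ℝ) := by exact_mod_cast hb
      have h3 : (p : ℝ) / (q : ℝ) ≤ (a : ℝ) / (b : ℝ) := h.trans hab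
      rw [div_le_div_iff₀ hqR hbR] at h3
      have h4 : p * b ≤ a * q := by exact_mod_cast h3
      rw [mul_comm q a]
      exact h4
  rw [hset]
  exact csInf_Ici

theorem strong_numbers {n : ℕ} {G : SimpleGraph (Fin n)} {p q : ℕ} (hp : 0 < p) (hq : 0 < q)
    (hG : Full p q G) :
    sInf {s : ℝ | ∀ a b : ℕ, 0 < b → s ≤ (a : ℝ) / (b : ℝ) →
      ∀ L : Fin n → Finset ℕ, (∀ v, (L v).card = a) →
        ∃ C : Fin n → Finset ℕ, (∀ v, C v ⊆ L v ∧ (C v).card = b) ∧
          ∀ u v, G.Adj u v → Disjoint (C u) (C v)} = (p : ℝ) / (q : ℝ) ∧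
    sInf {s : ℝ | ∀ a b : ℕ, 0 < b → s ≤ (a : ℝ) / (b : ℝ) →
      ∀ W : (Fin n → ℕ) → (Fin n → ℕ) → Prop,
        (∀ g h : Fin n → ℕ, (∀ v, h v = 0) → W g h) →
        (∀ g h : Fin n → ℕ, (∀ v, h v ≤ g v) →
          (∀ M : Finset (Fin n), M.Nonempty → (∀ v ∈ M, 0 < h v) →
            ∃ I ⊆ M, G.IsIndepSet (↑I : Set (Fin n)) ∧
              W (fun v => if v ∈ M then g v - 1 else g v)
                (fun v => if v ∈ I then h v - 1 else h v)) →
          W g h) →
        W (fun _ => a) (fun _ => b)} = (p : ℝ) / (q : ℝ) := by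
  have hchoose : ∀ a b : ℕ, (∀ L : Fin n → Finset ℕ, (∀ v, (L v).card = a) →
      ∃ C : Fin n → Finset ℕ, (∀ v, C v ⊆ L v ∧ (C v).card = b) ∧
        ∀ u v, G.Adj u v → Disjoint (C u) (C v)) → p * b ≤ q * a := by
    intro a b h
    obtain ⟨C, hC1, hC2⟩ := h (fun _ => Finset.range a) (fun _ => Finset.card_range a)
    have := hG.2 (Finset.range a) b C ⟨hC1, hC2⟩
    rwa [Finset.card_range] at this
  constructor
  · exact sInf_eq_of_threshold hp hq (fun a b => ∀ L : Fin n → Finset ℕ,
      (∀ v, (L v).card = a) → ∃ C : Fin n → Finset ℕ, (∀ v, C v ⊆ L v ∧ (C v).card = b) ∧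
        ∀ u v, G.Adj u v → Disjoint (C u) (C v))
      (fun a b hab L hL => exists_coloring_of_win (hG.1 a b hab) L hL) hchoose
  · exact sInf_eq_of_threshold hp hq (fun a b => Win G (fun _ => a) (fun _ => b)) hG.1
      (fun a b hw => hchoose a b (fun L hL => exists_coloring_of_win hw L hL))

/-- Result for natural-number data. -/
theorem main_nat (N s q : ℕ) (hN : 2 ≤ N) (hsq : s < q) (hq : q < 2 * s) :
    ∃ (n : ℕ) (G : SimpleGraph (Fin n)), Full (N * q + s) q G := by
  obtain ⟨k, rfl⟩ := Nat.exists_eq_add_of_le hN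
  have h := exists_full_fin (exists_full s q k hsq hq)
  have he : 2 * q + s + k * q = (2 + k) * q + s := by ring
  rwa [he] at h

end Helper122.SFP
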