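import Pool.Agent.Helper122_SFP.Chain

/-!
# All rationals from 5/2 on
-/

set_option autoImplicit false
set_option linter.unusedSectionVars false
set_option linter.unusedVariables false

namespace Helper122.SFP

open Finset

/-- Adding several apices. -/
theorem exists_full_add {p q : ℕ} (hq : 0 < q) (k : ℕ)
    (h : ∃ (V : Type) (_ : Fintype V) (_ : DecidableEq V) (G : SimpleGraph V), Full p q G) :
    ∃ (V : Type) (_ : Fintype V) (_ : DecidableEq V) (G : SimpleGraph V),
      Full (p + k * q) q G := by
  induction k with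
  | zero =>
    obtain ⟨V, i1, i2, G, hG⟩ := h
    exact ⟨V, i1, i2, G, by simpa using hG⟩
  | succ k ih =>
    obtain ⟨V, i1, i2, G, hG⟩ := ih
    have h := apex_full hq hG
    have he : p + (k + 1) * q = p + k * q + q := by ring
    exact ⟨Option V, inferInstance, inferInstance, apex G, by rw [he]; exact h⟩

/-- A single vertex. -/
theorem exists_full_one : ∃ (V : Type) (_ : Fintype V) (_ : DecidableEq V) (G : SimpleGraph V),
    Full 1 1 G := by
  refine ⟨Unit, inferInstance, inferInstance, ⊥, ?_, ?_⟩
  · intro a b hab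
    exact win_bot _ _ (fun _ => by omega)
  · intro L b C hC
    have h := Finset.card_le_card (hC.1 ()).1
    rw [(hC.1 ()).2] at h
    omega

/-- The five-cycle. -/
theorem exists_full_five : ∃ (V : Type) (_ : Fintype V) (_ : DecidableEq V)
    (G : SimpleGraph V), Full 5 2 G := by
  refine ⟨Option (Fin 4), inferInstance, inferInstance,
    coneG (gOf 4 edgesA) (fun v => v = 0 ∨ v = 3), ?_, ?_⟩
  · have main : ∀ b t : ℕ, t ≤ b → b ≤ 2 * t →
        Win (coneG (gOf 4 edgesA) (fun v => v = 0 ∨ v = 3)) (fun _ => 2 * b + t)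
          (fun _ => b) := by
      intro b t htb hbt
      refine cone_win (winA b t htb) _ _ _ ?_ ?_ ?_ ?_
      · omega
      · intro v
        fin_cases v <;> simp
      · rintro v (rfl | rfl)
        · simp
          omega
        · simp
          omega
      · intro v
        fin_cases v <;> simp <;> omega
    intro a b hab
    have ha : 2 * b ≤ a := by omega
    obtain ⟨t, rfl⟩ := Nat.exists_eq_add_of_le ha
    rcases le_total t b with htb | htb
    · exact main b t htb (by omega)
    · refine win_mono (main b b le_rfl (by omega)) le_rfl ?_ (fun _ => le_rfl)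
      intro v
      omega
  · intro L b C hC
    obtain ⟨h1, h2⟩ := cone_col hC
    have h3 := baseLo L b _ h1
    have h4 : Disjoint (C none) (C (some 0) ∪ C (some 3)) :=
      Finset.disjoint_union_right.2 ⟨h2 0 (Or.inl rfl), h2 3 (Or.inr rfl)⟩
    have h5 : (C none).card + (C (some 0) ∪ C (some 3)).card ≤ L.card := by
      rw [← Finset.card_union_of_disjoint h4]
      exact Finset.card_le_card (Finset.union_subset (hC.1 _).1
        (Finset.union_subset (hC.1 _).1 (hC.1 _).1))
    rw [(hC.1 _).2] at h5
    beta_reduce at h3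
    omega

/-- `r = p / q` for some `p`, `q` such that a graph with exact threshold `p / q` exists. -/
theorem exists_full_rat (r : ℚ) (hr : (5 : ℚ) / 2 ≤ r) :
    ∃ p q : ℕ, 0 < p ∧ 0 < q ∧ r = (p : ℚ) / (q : ℚ) ∧
      ∃ (V : Type) (_ : Fintype V) (_ : DecidableEq V) (G : SimpleGraph V), Full p q G := by
  set f : ℚ := Int.fract r with hfdef
  have hf1 : f < 1 := Int.fract_lt_one r
  have hf0 : 0 ≤ f := Int.fract_nonneg r
  have hq : 0 < f.den := f.den_pos
  have hnum : 0 ≤ f.num := Rat.num_nonneg.2 hf0
  obtain ⟨s, hs⟩ : ∃ s : ℕ, (s : ℤ) = f.num := ⟨f.num.toNat, Int.toNat_of_nonneg hnum⟩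
  have hfe : f = (s : ℚ) / (f.den : ℚ) := by
    have h1 : ((s : ℤ) : ℚ) = (f.num : ℚ) := by rw [hs]
    rw [Int.cast_natCast] at h1
    rw [h1]
    exact (Rat.num_div_den f).symm
  have hqQ : (0 : ℚ) < (f.den : ℚ) := by exact_mod_cast hq
  have hsq : s < f.den := by
    rw [hfe, div_lt_one hqQ] at hf1
    exact_mod_cast hf1
  have hfl : (2 : ℤ) ≤ ⌊r⌋ := by
    rw [Int.le_floor]
    refine le_trans ?_ hr
    norm_num
  obtain ⟨N, hN⟩ : ∃ N : ℕ, (N : ℤ) = ⌊r⌋ := ⟨⌊r⌋.toNat, Int.toNat_of_nonneg (by omega)⟩
  have hN2 : 2 ≤ N := by omega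
  have hrN : r = (N : ℚ) + f := by
    have h3 : ((N : ℤ) : ℚ) = ((⌊r⌋ : ℤ) : ℚ) := by rw [hN]
    rw [Int.cast_natCast] at h3
    rw [h3]
    exact (Int.floor_add_fract r).symm
  have hre : r = ((N * f.den + s : ℕ) : ℚ) / ((f.den : ℕ) : ℚ) := by
    push_cast
    rw [add_div, mul_div_assoc, div_self hqQ.ne', mul_one, ← hfe]
    exact hrN
  rcases Nat.eq_zero_or_pos s with hs0 | hspos
  · -- integers
    refine ⟨N, 1, by omega, by omega, ?_, ?_⟩
    · rw [hrN, hfe, hs0]
      simp
    · obtain ⟨k, rfl⟩ := Nat.exists_eq_add_of_le hN2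
      have h := exists_full_add (by omega) (k + 1) exists_full_one
      have he : 1 + (k + 1) * 1 = 2 + k := by ring
      rw [he] at h
      exact h
  · by_cases hN3 : 3 ≤ N
    · refine ⟨N * f.den + s, f.den, by omega, hq, hre, ?_⟩
      obtain ⟨k, rfl⟩ := Nat.exists_eq_add_of_le hN3
      have h := exists_full_add hq k (exists_full_three s f.den hspos hsq)
      have he : 3 * f.den + s + k * f.den = (3 + k) * f.den + s := by ring
      rw [he] at h
      exact h
    · have hN2' : N = 2 := by omega
      subst hN2'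
      have hhalf : (1 : ℚ) / 2 ≤ f := by
        rw [hrN] at hr
        push_cast at hr
        linarith
      rcases hhalf.lt_or_eq with hlt | heq
      · refine ⟨2 * f.den + s, f.den, by omega, hq, hre, ?_⟩
        refine exists_full_two s f.den hsq ?_
        rw [hfe, div_lt_div_iff₀ (by norm_num) hqQ, one_mul] at hlt
        have h1 : (f.den : ℚ) < 2 * (s : ℚ) := by linarith
        exact_mod_cast h1
      · refine ⟨5, 2, by omega, by omega, ?_, exists_full_five⟩
        rw [hrN, ← heq]
        norm_num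

end Helper122.SFP
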