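import Mathlib

/-!
# The multi-fold online list colouring (painting) game

`Win G g h`: Painter wins the painting game on `G` when vertex `v` has `g v` tokens left and
still needs `h v` colours (least fixed point, written impredicatively exactly as in the frozen
statement S07673).
-/

set_option autoImplicit false

namespace Helper122.SFP

open Finset

variable {V : Type} [DecidableEq V]

/-- Painter wins from the state with `g v` tokens and `h v` missing colours at vertex `v`. -/
def Win (G : SimpleGraph V) (g h : V → ℕ) : Prop :=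
  ∀ W : (V → ℕ) → (V → ℕ) → Prop,
    (∀ g h : V → ℕ, (∀ v, h v = 0) → W g h) →
    (∀ g h : V → ℕ, (∀ v, h v ≤ g v) →
      (∀ M : Finset V, M.Nonempty → (∀ v ∈ M, 0 < h v) →
        ∃ I ⊆ M, G.IsIndepSet (↑I : Set V) ∧
          W (fun v => if v ∈ M then g v - 1 else g v)
            (fun v => if v ∈ I then h v - 1 else h v)) →
      W g h) →
    W g h

/-- The state is closed: either nothing is missing, or Painter can answer each move staying in
`S`. -/
def Step (G : SimpleGraph V) (S : (V → ℕ) → (V → ℕ) → Prop) (g h : V → ℕ) : Prop :=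
  (∀ v, h v ≤ g v) ∧
    ∀ M : Finset V, M.Nonempty → (∀ v ∈ M, 0 < h v) →
      ∃ I ⊆ M, G.IsIndepSet (↑I : Set V) ∧
        S (fun v => if v ∈ M then g v - 1 else g v)
          (fun v => if v ∈ I then h v - 1 else h v)

theorem win_zero {G : SimpleGraph V} {g h : V → ℕ} (h0 : ∀ v, h v = 0) : Win G g h :=
  fun _ h1 _ => h1 g h h0

theorem win_step {G : SimpleGraph V} {g h : V → ℕ} (hs : Step G (Win G) g h) : Win G g h := by
  intro W h1 h2
  refine h2 g h hs.1 ?_
  intro M hne hpos
  obtain ⟨I, hI, hind, hw⟩ := hs.2 M hne hpos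
  exact ⟨I, hI, hind, hw W h1 h2⟩

theorem win_inv {G : SimpleGraph V} {g h : V → ℕ} (hw : Win G g h) :
    (∀ v, h v = 0) ∨ Step G (Win G) g h := by
  refine hw (fun g h => (∀ v, h v = 0) ∨ Step G (Win G) g h) ?_ ?_
  · intro g h h0
    exact Or.inl h0
  · intro g h hle hM
    refine Or.inr ⟨hle, ?_⟩
    intro M hne hpos
    obtain ⟨I, hI, hind, hrec⟩ := hM M hne hpos
    refine ⟨I, hI, hind, ?_⟩
    rcases hrec with h0 | hs
    · exact win_zero h0
    · exact win_step hs

theorem win_of_closed [Fintype V] {G : SimpleGraph V} (S : (V → ℕ) → (V → ℕ) → Prop)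
    (hS : ∀ g h, S g h → (∀ v, h v = 0) ∨ Step G S g h) :
    ∀ g h, S g h → Win G g h := by
  have key : ∀ n : ℕ, ∀ g h : V → ℕ, (∑ v, g v) = n → S g h → Win G g h := by
    intro n
    induction n using Nat.strong_induction_on with
    | _ n ih =>
      intro g h hn hgh
      rcases hS g h hgh with h0 | ⟨hle, hM⟩
      · exact win_zero h0
      · refine win_step ⟨hle, ?_⟩
        intro M hne hpos
        obtain ⟨I, hI, hind, hnext⟩ := hM M hne hpos
        refine ⟨I, hI, hind, ?_⟩
        refine ih _ ?_ _ _ rfl hnext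
        rw [← hn]
        obtain ⟨w, hw⟩ := hne
        refine Finset.sum_lt_sum ?_ ⟨w, Finset.mem_univ w, ?_⟩
        · intro v _
          split_ifs
          · omega
          · exact le_rfl
        · rw [if_pos hw]
          have h1 := hpos w hw
          have h2 := hle w
          omega
  intro g h hgh
  exact key _ g h rfl hgh

/-- Monotonicity: more tokens, fewer missing colours, fewer edges. -/
theorem win_mono [Fintype V] {G G' : SimpleGraph V} {g h g' h' : V → ℕ} (hw : Win G g h)
    (hG : G' ≤ G) (hg : ∀ v, g v ≤ g' v) (hh : ∀ v, h' v ≤ h v) : Win G' g' h' := by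
  refine win_of_closed (fun g' h' => ∃ g h, Win G g h ∧ (∀ v, g v ≤ g' v) ∧ ∀ v, h' v ≤ h v)
    ?_ g' h' ⟨g, h, hw, hg, hh⟩
  rintro g' h' ⟨g, h, hw, hg, hh⟩
  rcases win_inv hw with h0 | ⟨hle, hM⟩
  · left
    intro v
    have h1 := hh v
    have h2 := h0 v
    omega
  · right
    refine ⟨fun v => (hh v).trans ((hle v).trans (hg v)), ?_⟩
    intro M hne hpos
    obtain ⟨I, hI, hind, hnext⟩ := hM M hne (fun v hv => lt_of_lt_of_le (hpos v hv) (hh v))
    refine ⟨I, hI, ?_, _, _, hnext, ?_, ?_⟩
    · intro x hx y hy hxy hadj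
      exact hind hx hy hxy (hG hadj)
    · intro v
      have h1 := hg v
      show (if v ∈ M then g v - 1 else g v) ≤ (if v ∈ M then g' v - 1 else g' v)
      split_ifs
      · exact Nat.sub_le_sub_right h1 1
      · exact h1
    · intro v
      have h1 := hh v
      show (if v ∈ I then h' v - 1 else h' v) ≤ (if v ∈ I then h v - 1 else h v)
      split_ifs
      · exact Nat.sub_le_sub_right h1 1
      · exact h1

/-- Composition: play the game on `G₁` first with demands `D`, then use `D` as the tokens of
the game on `G₂`. -/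
theorem win_comp [Fintype V] {G₁ G₂ : SimpleGraph V} {g D h : V → ℕ} (h₁ : Win G₁ g D)
    (h₂ : Win G₂ D h) : Win (G₁ ⊔ G₂) g h := by
  refine win_of_closed (fun g h => ∃ D, Win G₁ g D ∧ Win G₂ D h) ?_ g h ⟨D, h₁, h₂⟩
  rintro g h ⟨D, h₁, h₂⟩
  rcases win_inv h₂ with h0 | ⟨hle₂, hM₂⟩
  · exact Or.inl h0
  rcases win_inv h₁ with h0 | ⟨hle₁, hM₁⟩
  · left
    intro v
    have h1 := hle₂ v
    have h2 := h0 v
    omega
  right
  refine ⟨fun v => (hle₂ v).trans (hle₁ v), ?_⟩
  intro M hne hpos
  obtain ⟨I₁, hI₁, hind₁, hw₁⟩ :=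
    hM₁ M hne (fun v hv => lt_of_lt_of_le (hpos v hv) (hle₂ v))
  rcases I₁.eq_empty_or_nonempty with he | hne₁
  · refine ⟨∅, Finset.empty_subset _, ?_, D, ?_, ?_⟩
    · simp
    · subst he
      simpa using hw₁
    · simpa using h₂
  · obtain ⟨I₂, hI₂, hind₂, hw₂⟩ := hM₂ I₁ hne₁ (fun v hv => hpos v (hI₁ hv))
    refine ⟨I₂, hI₂.trans hI₁, ?_, _, hw₁, hw₂⟩
    intro x hx y hy hxy hadj
    rw [SimpleGraph.sup_adj] at hadj
    rcases hadj with hadj | hadj
    · exact hind₁ (Finset.mem_coe.2 (hI₂ (Finset.mem_coe.1 hx)))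
        (Finset.mem_coe.2 (hI₂ (Finset.mem_coe.1 hy))) hxy hadj
    · exact hind₂ hx hy hxy hadj

/-- Embedding: a win on a graph `H` gives a win on its image inside a bigger vertex set, the other
vertices being isolated with at least as many tokens as missing colours. -/
theorem win_map [Fintype V] {U : Type} [DecidableEq U] (φ : U ↪ V)
    {H : SimpleGraph U} {g h : V → ℕ} (hw : Win H (fun u => g (φ u)) (fun u => h (φ u)))
    (hoff : ∀ v, v ∉ Set.range φ → h v ≤ g v) : Win (H.map φ) g h := by
  classical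
  refine win_of_closed (fun g h => Win H (fun u => g (φ u)) (fun u => h (φ u)) ∧
    ∀ v, v ∉ Set.range φ → h v ≤ g v) ?_ g h ⟨hw, hoff⟩
  rintro g h ⟨hw, hoff⟩
  -- the tokens dominate the demands
  have hle : ∀ v, h v ≤ g v := by
    intro v
    by_cases hv : v ∈ Set.range φ
    · obtain ⟨u, rfl⟩ := hv
      rcases win_inv hw with h0 | ⟨hle, _⟩
      · have h1 : h (φ u) = 0 := h0 u
        omega
      · exact hle u
    · exact hoff v hv
  right
  refine ⟨hle, ?_⟩
  intro M hne hpos
  set M' : Finset U := M.preimage φ (φ.injective.injOn) with hM'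
  have hmem' : ∀ u, u ∈ M' ↔ φ u ∈ M := by
    intro u
    simp [hM']
  obtain ⟨I', hI', hind', hw'⟩ : ∃ I' ⊆ M', H.IsIndepSet (↑I' : Set U) ∧
      Win H (fun u => if φ u ∈ M then g (φ u) - 1 else g (φ u))
        (fun u => if u ∈ I' then h (φ u) - 1 else h (φ u)) := by
    rcases M'.eq_empty_or_nonempty with he | hne'
    · refine ⟨∅, Finset.empty_subset _, by simp, ?_⟩
      have hno : ∀ u, φ u ∉ M := by
        intro u hu
        have : u ∈ M' := (hmem' u).2 hu
        rw [he] at this
        simp at this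
      simpa [hno] using hw
    · rcases win_inv hw with h0 | ⟨_, hM⟩
      · obtain ⟨u, hu⟩ := hne'
        have h1 := hpos _ ((hmem' u).1 hu)
        have h2 : h (φ u) = 0 := h0 u
        omega
      · obtain ⟨I', hI', hind', hw'⟩ := hM M' hne' (fun u hu => hpos _ ((hmem' u).1 hu))
        refine ⟨I', hI', hind', ?_⟩
        simpa only [hmem'] using hw'
  refine ⟨M.filter (fun v => ∀ u, φ u = v → u ∈ I'), Finset.filter_subset _ _, ?_, ?_, ?_⟩
  · intro x hx y hy hxy hadj
    rw [SimpleGraph.map_adj] at hadj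
    obtain ⟨u, w, huw, rfl, rfl⟩ := hadj
    have hu : u ∈ I' := (Finset.mem_filter.1 (Finset.mem_coe.1 hx)).2 u rfl
    have hw : w ∈ I' := (Finset.mem_filter.1 (Finset.mem_coe.1 hy)).2 w rfl
    exact hind' (Finset.mem_coe.2 hu) (Finset.mem_coe.2 hw) (fun h => hxy (by rw [h])) huw
  · have heq : (fun u => if φ u ∈ M.filter (fun v => ∀ u, φ u = v → u ∈ I') then h (φ u) - 1
        else h (φ u)) = (fun u => if u ∈ I' then h (φ u) - 1 else h (φ u)) := by
      funext u
      have hiff : φ u ∈ M.filter (fun v => ∀ u, φ u = v → u ∈ I') ↔ u ∈ I' := by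
        rw [Finset.mem_filter]
        constructor
        · intro hh
          exact hh.2 u rfl
        · intro hu
          refine ⟨(hmem' u).1 (hI' hu), ?_⟩
          intro w hw
          rwa [φ.injective hw]
      simp only [hiff]
    rw [heq]
    exact hw'
  · intro v hv
    have h1 := hle v
    by_cases hvM : v ∈ M
    · have hvI : v ∈ M.filter (fun v => ∀ u, φ u = v → u ∈ I') := by
        rw [Finset.mem_filter]
        refine ⟨hvM, ?_⟩
        intro u hu
        exact absurd ⟨u, hu⟩ hv
      simp only [if_pos hvM, if_pos hvI]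
      exact Nat.sub_le_sub_right h1 1
    · have hvI : v ∉ M.filter (fun v => ∀ u, φ u = v → u ∈ I') := by
        intro hh
        exact hvM (Finset.mem_filter.1 hh).1
      simp only [if_neg hvM, if_neg hvI]
      exact h1

/-- Painter's win gives a multi-fold list colouring. -/
theorem exists_coloring_of_win [Fintype V] {G : SimpleGraph V} {g h : V → ℕ} (hw : Win G g h) :
    ∀ L : V → Finset ℕ, (∀ v, (L v).card = g v) →
      ∃ C : V → Finset ℕ, (∀ v, C v ⊆ L v ∧ (C v).card = h v) ∧
        ∀ u v, G.Adj u v → Disjoint (C u) (C v) := by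
  classical
  refine hw (fun g h => ∀ L : V → Finset ℕ, (∀ v, (L v).card = g v) →
      ∃ C : V → Finset ℕ, (∀ v, C v ⊆ L v ∧ (C v).card = h v) ∧
        ∀ u v, G.Adj u v → Disjoint (C u) (C v)) ?_ ?_
  · intro g h h0 L hL
    exact ⟨fun _ => ∅, fun v => ⟨Finset.empty_subset _, by simp [h0 v]⟩, fun _ _ _ => by simp⟩
  · intro g h hle hM L hL
    by_cases h0 : ∀ v, h v = 0
    · exact ⟨fun _ => ∅, fun v => ⟨Finset.empty_subset _, by simp [h0 v]⟩,
        fun _ _ _ => by simp⟩
    obtain ⟨v₀, hv₀⟩ := not_forall.1 h0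
    have hpos₀ : 0 < (L v₀).card := by
      rw [hL v₀]
      have := hle v₀
      omega
    obtain ⟨c, hc⟩ := Finset.card_pos.1 hpos₀
    set M : Finset V := Finset.univ.filter (fun v => c ∈ L v ∧ 0 < h v) with hMdef
    have hmem : ∀ v, v ∈ M ↔ c ∈ L v ∧ 0 < h v := by
      intro v
      simp [hMdef]
    obtain ⟨I, hI, hind, hrec⟩ := hM M ⟨v₀, (hmem v₀).2 ⟨hc, Nat.pos_of_ne_zero hv₀⟩⟩
      (fun v hv => ((hmem v).1 hv).2)
    obtain ⟨C', hC', hdisj'⟩ := hrec (fun v => if v ∈ M then (L v).erase c else L v) (by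
      intro v
      by_cases hv : v ∈ M
      · simp only [if_pos hv]
        rw [Finset.card_erase_of_mem ((hmem v).1 hv).1, hL v]
      · simp only [if_neg hv]
        exact hL v)
    have hcC' : ∀ v, c ∉ C' v := by
      intro v hcv
      by_cases hv : v ∈ M
      · have h1 := (hC' v).1 hcv
        simp only [if_pos hv] at h1
        exact Finset.notMem_erase c _ h1
      · have h1 := (hC' v).1 hcv
        simp only [if_neg hv] at h1
        have h2 : ¬ (0 < h v) := fun h3 => hv ((hmem v).2 ⟨h1, h3⟩)
        have h3 : (C' v).card = 0 := by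
          rw [(hC' v).2]
          have : v ∉ I := fun h4 => hv (hI h4)
          simp only [if_neg this]
          omega
        rw [Finset.card_eq_zero] at h3
        rw [h3] at hcv
        simp at hcv
    refine ⟨fun v => if v ∈ I then insert c (C' v) else C' v, ?_, ?_⟩
    · intro v
      by_cases hv : v ∈ I
      · have hvM := hI hv
        have h1 := (hmem v).1 hvM
        have h2 := hC' v
        simp only [if_pos hv, if_pos hvM] at h2 ⊢
        refine ⟨?_, ?_⟩
        · refine Finset.insert_subset h1.1 (h2.1.trans (Finset.erase_subset _ _))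
        · rw [Finset.card_insert_of_notMem (hcC' v), h2.2]
          omega
      · have h2 := hC' v
        simp only [if_neg hv] at h2 ⊢
        refine ⟨?_, h2.2⟩
        refine h2.1.trans ?_
        split_ifs
        · exact Finset.erase_subset _ _
        · exact Finset.Subset.refl _
    · intro u v huv
      have h1 := hdisj' u v huv
      by_cases hu : u ∈ I
      · by_cases hv : v ∈ I
        · exact absurd huv (hind (Finset.mem_coe.2 hu) (Finset.mem_coe.2 hv) huv.ne)
        · simp only [if_pos hu, if_neg hv]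
          rw [Finset.disjoint_insert_left]
          exact ⟨hcC' v, h1⟩
      · by_cases hv : v ∈ I
        · simp only [if_neg hu, if_pos hv]
          rw [Finset.disjoint_insert_right]
          exact ⟨hcC' u, h1⟩
        · simp only [if_neg hu, if_neg hv]
          exact h1

end Helper122.SFP
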