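import Pool.Agent.Helper122_SFP.Cores

/-!
# Kernel systems on the two cores
-/

set_option autoImplicit false

namespace Helper122.SFP

theorem hubR (b t δ δ' m β : ℕ) (htb : t ≤ b) (hδ : δ ≤ t) (hδ' : δ' ≤ t) (hm : m + β = b)
    (hβ : β + δ' ≤ t + δ) :
    Sys (gOf 5 edgesR) (fun v => ER v = true)
      ![b + δ, 3 * b + t, 3 * b + t, 3 * b + t, 3 * b + t] ![b, b + δ', b, b, b]
      m (b + β) β := by
  obtain ⟨w, hw⟩ : ∃ w, w = b + δ' - 2 * t := ⟨_, rfl⟩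
  obtain ⟨u, hu⟩ : ∃ u, u = b - t + δ' - w := ⟨_, rfl⟩
  refine sysR ![t, b - t, δ, b + δ' - δ, δ, b - δ, w, m - w, β, t - u, u, b - t] _ _ m (b + β) β
    ?_ ?_ ?_ ?_
  · intro v
    fin_cases v <;> simp [AR] <;> omega
  · simp
    omega
  · simp
    omega
  · intro x
    fin_cases x <;> simp [DR, piR] <;> omega

theorem hubS (b t δ' m β : ℕ) (htb : t ≤ b) (hδ' : δ' ≤ t) (hm : m + β = b)
    (hβ : β + δ' ≤ t) :
    Sys (gOf 4 edgesS) (fun v => ES v = true)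
      ![2 * b + t, 2 * b + t, 3 * b + t, 3 * b + t] ![b + δ', b, b, b]
      m (b + β) β := by
  obtain ⟨w, hw⟩ : ∃ w, w = b + δ' - 2 * t := ⟨_, rfl⟩
  obtain ⟨u, hu⟩ : ∃ u, u = b - t + δ' - w := ⟨_, rfl⟩
  refine sysS ![b + δ', b, w, m - w, β, t - u, u, b - t] _ _ m (b + β) β
    ?_ ?_ ?_ ?_
  · intro v
    fin_cases v <;> simp [AS] <;> omega
  · simp
    omega
  · simp
    omega
  · intro x
    fin_cases x <;> simp [DS, piS] <;> omega

end Helper122.SFP
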