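import Pool.Agent.Helper122_SFP.Game

/-!
# The class (kernel) lemma
-/

set_option autoImplicit false

namespace Helper122.SFP

open Finset

/-- Class lemma: the missing colours at vertex `v` are split in classes `x` with `π x = v`, of sizes
`c x`.  `dom x y` says that class `y` is at the same vertex as `x` or better than `x`.  If each set
of present classes has a kernel, then Painter wins as soon as each nonempty class sees at most as
many units as there are tokens. -/
theorem win_of_classes {m k : ℕ} (H : SimpleGraph (Fin m)) (π : Fin k → Fin m)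
    (dom : Fin k → Fin k → Bool)
    (hsame : ∀ x y, π y = π x → dom x y = true)
    (ker : ∀ P : Fin k → Bool, ∃ Q : Fin k → Bool, (∀ x, Q x = true → P x = true) ∧
      (∀ x y, Q x = true → Q y = true → x ≠ y → π x ≠ π y ∧ ¬ H.Adj (π x) (π y)) ∧
      ∀ x, P x = true → ∃ y, Q y = true ∧ dom x y = true)
    (c : Fin k → ℕ) (g h : Fin m → ℕ)
    (hh : ∀ v, h v = ∑ x, if π x = v then c x else 0)
    (hg : ∀ x, 0 < c x → (∑ y, if dom x y = true then c y else 0) ≤ g (π x)) :
    Win H g h := by
  refine win_of_closed (fun g h => ∃ c : Fin k → ℕ,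
    (∀ v, h v = ∑ x, if π x = v then c x else 0) ∧
    (∀ x, 0 < c x → (∑ y, if dom x y = true then c y else 0) ≤ g (π x))) ?_ g h ⟨c, hh, hg⟩
  clear hh hg c g h
  rintro g h ⟨c, hh, hg⟩
  right
  refine ⟨?_, ?_⟩
  · intro v
    rcases Nat.eq_zero_or_pos (h v) with h0 | hpos
    · omega
    · rw [hh v] at hpos
      obtain ⟨x, -, hx⟩ := Finset.exists_ne_zero_of_sum_ne_zero (Nat.pos_iff_ne_zero.1 hpos)
      by_cases hxv : π x = v
      · rw [if_pos hxv] at hx
        have h1 := hg x (Nat.pos_of_ne_zero hx)
        rw [hxv] at h1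
        refine le_trans ?_ h1
        rw [hh v]
        refine Finset.sum_le_sum ?_
        intro y _
        by_cases hy : π y = v
        · rw [if_pos hy, if_pos (hsame x y (hy.trans hxv.symm))]
        · rw [if_neg hy]
          exact Nat.zero_le _
      · rw [if_neg hxv] at hx
        exact absurd rfl hx
  · intro M hne hpos
    obtain ⟨Q, hQP, hQi, hQk⟩ := ker (fun x => decide (π x ∈ M ∧ 0 < c x))
    have hQP' : ∀ x, Q x = true → π x ∈ M ∧ 0 < c x := fun x hx => of_decide_eq_true (hQP x hx)
    set I : Finset (Fin m) := (Finset.univ.filter (fun x => Q x = true)).image π with hI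
    have hmemI : ∀ v, v ∈ I ↔ ∃ x, Q x = true ∧ π x = v := by
      intro v
      simp [hI]
    refine ⟨I, ?_, ?_, fun x => if Q x = true then c x - 1 else c x, ?_, ?_⟩
    · intro v hv
      obtain ⟨x, hx, rfl⟩ := (hmemI v).1 hv
      exact (hQP' x hx).1
    · intro u hu v hv huv hadj
      obtain ⟨x, hx, rfl⟩ := (hmemI u).1 (Finset.mem_coe.1 hu)
      obtain ⟨y, hy, rfl⟩ := (hmemI v).1 (Finset.mem_coe.1 hv)
      exact (hQi x y hx hy (fun h => huv (by rw [h]))).2 hadj
    · intro v
      beta_reduce
      by_cases hv : v ∈ I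
      · rw [if_pos hv]
        obtain ⟨x, hx, hxv⟩ := (hmemI v).1 hv
        have h1 : (∑ y, if π y = v then (if Q y = true then c y - 1 else c y) else 0) + 1 =
            ∑ y, if π y = v then c y else 0 := by
          rw [← Finset.add_sum_erase _ _ (Finset.mem_univ x),
            ← Finset.add_sum_erase (f := fun y => if π y = v then c y else 0) _
              (Finset.mem_univ x)]
          have h2 : (∑ y ∈ Finset.univ.erase x,
              if π y = v then (if Q y = true then c y - 1 else c y) else 0) =
              ∑ y ∈ Finset.univ.erase x, if π y = v then c y else 0 := by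
            refine Finset.sum_congr rfl ?_
            intro y hy
            have hyx : y ≠ x := Finset.ne_of_mem_erase hy
            by_cases hyv : π y = v
            · rw [if_pos hyv, if_pos hyv]
              by_cases hQy : Q y = true
              · exact absurd (hyv.trans hxv.symm) (hQi y x hQy hx hyx).1
              · rw [if_neg hQy]
            · rw [if_neg hyv, if_neg hyv]
          rw [h2]
          simp only [if_pos hxv, if_pos hx]
          have h3 := (hQP' x hx).2
          omega
        rw [hh v, ← h1, Nat.add_sub_cancel]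
      · rw [if_neg hv, hh v]
        refine Finset.sum_congr rfl ?_
        intro y _
        by_cases hyv : π y = v
        · rw [if_pos hyv, if_pos hyv]
          by_cases hQy : Q y = true
          · exact absurd ((hmemI v).2 ⟨y, hQy, hyv⟩) hv
          · rw [if_neg hQy]
        · rw [if_neg hyv, if_neg hyv]
    · intro x hx
      beta_reduce at hx ⊢
      have hcx : 0 < c x := by
        by_cases hQx : Q x = true
        · exact (hQP' x hQx).2
        · rw [if_neg hQx] at hx
          exact hx
      have h0 := hg x hcx
      have hle : (∑ y, if dom x y = true then (if Q y = true then c y - 1 else c y) else 0) ≤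
          ∑ y, if dom x y = true then c y else 0 := by
        refine Finset.sum_le_sum ?_
        intro y _
        split_ifs
        · exact Nat.sub_le _ _
        · exact le_rfl
        · exact le_rfl
      by_cases hxM : π x ∈ M
      · rw [if_pos hxM]
        obtain ⟨y, hy, hdy⟩ := hQk x (decide_eq_true ⟨hxM, hcx⟩)
        have hlt : (∑ y, if dom x y = true then (if Q y = true then c y - 1 else c y) else 0) <
            ∑ y, if dom x y = true then c y else 0 := by
          refine Finset.sum_lt_sum ?_ ⟨y, Finset.mem_univ y, ?_⟩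
          · intro y _
            split_ifs
            · exact Nat.sub_le _ _
            · exact le_rfl
            · exact le_rfl
          · rw [if_pos hdy, if_pos hdy, if_pos hy]
            have := (hQP' y hy).2
            omega
        omega
      · rw [if_neg hxM]
        exact hle.trans h0

/-! ## Bitmask check of kernels -/

/-- `f i` for all `i < n`. -/
def allBelow : ℕ → (ℕ → Bool) → Bool
  | 0, _ => true
  | n + 1, f => f n && allBelow n f

theorem allBelow_spec {n : ℕ} {f : ℕ → Bool} (h : allBelow n f = true) {i : ℕ} (hi : i < n) :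
    f i = true := by
  induction n with
  | zero => omega
  | succ n ih =>
    rw [allBelow, Bool.and_eq_true] at h
    rcases Nat.lt_succ_iff_lt_or_eq.1 hi with h1 | h1
    · exact ih h.2 h1
    · rw [h1]
      exact h.1

/-- Field number `i` (fields of `w` bits) of the packed table `T`. -/
def fld (w T i : ℕ) : ℕ := (T >>> (w * i)) % 2 ^ w

/-- `Q` is a kernel of `P`. -/
def kerOK (k conf dom P Q : ℕ) : Bool :=
  Nat.beq (Q &&& P) Q &&
    allBelow k (fun i => (!(Q.testBit i) || Nat.beq (Q &&& fld k conf i) 0) &&
      (!(P.testBit i) || !(Nat.beq (Q &&& fld k dom i) 0)))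

/-- Check all `P` in the block with given prefix. -/
def kerBlock (k conf dom T : ℕ) : ℕ → ℕ → Bool
  | 0, P => kerOK k conf dom P (fld k T P)
  | d + 1, P => kerBlock k conf dom T d (2 * P) && kerBlock k conf dom T d (2 * P + 1)

theorem kerBlock_spec {k conf dom T d P : ℕ} (h : kerBlock k conf dom T d P = true) {r : ℕ}
    (hr : r < 2 ^ d) : kerOK k conf dom (P * 2 ^ d + r) (fld k T (P * 2 ^ d + r)) = true := by
  induction d generalizing P r with
  | zero =>
    have : r = 0 := by simpa using hr
    subst this
    simpa [kerBlock] using h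
  | succ d ih =>
    rw [kerBlock, Bool.and_eq_true] at h
    by_cases hr' : r < 2 ^ d
    · have := ih h.1 hr'
      have he : 2 * P * 2 ^ d + r = P * 2 ^ (d + 1) + r := by ring
      rwa [he] at this
    · have hr2 : r - 2 ^ d < 2 ^ d := by
        rw [pow_succ] at hr
        omega
      have := ih h.2 hr2
      have he : (2 * P + 1) * 2 ^ d + (r - 2 ^ d) = P * 2 ^ (d + 1) + r := by
        have h1 : (2 * P + 1) * 2 ^ d = P * 2 ^ (d + 1) + 2 ^ d := by ring
        rw [h1]
        omega
      rwa [he] at this

theorem kerOK_spec {k conf dom P Q : ℕ} (h : kerOK k conf dom P Q = true) :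
    (∀ i, Q.testBit i = true → P.testBit i = true) ∧
    (∀ i, i < k → Q.testBit i = true → ∀ j, Q.testBit j = true →
      (fld k conf i).testBit j = false) ∧
    (∀ i, i < k → P.testBit i = true → ∃ j, Q.testBit j = true ∧
      (fld k dom i).testBit j = true) := by
  rw [kerOK, Bool.and_eq_true] at h
  obtain ⟨h1, h2⟩ := h
  have h1' : Q &&& P = Q := Nat.eq_of_beq_eq_true h1
  refine ⟨?_, ?_, ?_⟩
  · intro i hi
    rw [← h1', Nat.testBit_and, Bool.and_eq_true] at hi
    exact hi.2
  · intro i hi hQi j hQj
    have h3 := allBelow_spec h2 hi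
    rw [Bool.and_eq_true, Bool.or_eq_true] at h3
    rcases h3.1 with h4 | h4
    · rw [hQi] at h4
      simp at h4
    · have h5 : Q &&& fld k conf i = 0 := Nat.eq_of_beq_eq_true h4
      have h6 : (Q &&& fld k conf i).testBit j = false := by
        rw [h5]
        simp
      rw [Nat.testBit_and, hQj, Bool.true_and] at h6
      exact h6
  · intro i hi hPi
    have h3 := allBelow_spec h2 hi
    rw [Bool.and_eq_true, Bool.or_eq_true, Bool.or_eq_true] at h3
    rcases h3.2 with h4 | h4
    · rw [hPi] at h4
      simp at h4
    · by_contra hno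
      have h5 : Q &&& fld k dom i = 0 := by
        refine Nat.eq_of_testBit_eq ?_
        intro j
        rw [Nat.testBit_and, Nat.zero_testBit]
        by_contra hj
        rw [Bool.not_eq_false, Bool.and_eq_true] at hj
        exact hno ⟨j, hj.1, hj.2⟩
      rw [h5] at h4
      exact absurd h4 (by decide)

/-- The class lemma with a bitmask certificate. -/
theorem win_of_masks {m k : ℕ} (H : SimpleGraph (Fin m)) (π : Fin k → Fin m)
    (conf dom T : ℕ)
    (hsame : ∀ x y : Fin k, π y = π x → (fld k dom x).testBit y = true)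
    (hconf : ∀ x y : Fin k, x ≠ y → (π x = π y ∨ H.Adj (π x) (π y)) →
      (fld k conf x).testBit y = true)
    (hker : kerBlock k conf dom T k 0 = true)
    (c : Fin k → ℕ) (g h : Fin m → ℕ)
    (hh : ∀ v, h v = ∑ x, if π x = v then c x else 0)
    (hg : ∀ x : Fin k, 0 < c x →
      (∑ y : Fin k, if (fld k dom x).testBit y = true then c y else 0) ≤ g (π x)) :
    Win H g h := by
  refine win_of_classes H π (fun x y => (fld k dom x).testBit y) hsame ?_ c g h hh hg
  intro P
  have hlt : Nat.ofBits P < 2 ^ k := Nat.ofBits_lt_two_pow P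
  have hOK := kerBlock_spec hker hlt
  rw [Nat.zero_mul, Nat.zero_add] at hOK
  obtain ⟨h1, h2, h3⟩ := kerOK_spec hOK
  set Q := fld k T (Nat.ofBits P) with hQ
  have hP : ∀ x : Fin k, (Nat.ofBits P).testBit x = P x := fun x =>
    Nat.testBit_ofBits_lt P x x.2
  refine ⟨fun x => Q.testBit x, ?_, ?_, ?_⟩
  · intro x hx
    rw [← hP x]
    exact h1 x hx
  · intro x y hx hy hxy
    have h4 := h2 x x.2 hx y hy
    have h5 : ¬ (π x = π y ∨ H.Adj (π x) (π y)) := by
      intro h6
      rw [hconf x y hxy h6] at h4
      exact absurd h4 (by decide)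
    exact ⟨fun h6 => h5 (Or.inl h6), fun h6 => h5 (Or.inr h6)⟩
  · intro x hx
    rw [← hP x] at hx
    obtain ⟨j, hj, hdj⟩ := h3 x x.2 hx
    have hjk : j < k := by
      by_contra hjk
      have h4 := h1 j hj
      have h5 : (Nat.ofBits P).testBit j = false :=
        Nat.testBit_ofBits_ge P j (Nat.not_lt.1 hjk)
      rw [h5] at h4
      exact absurd h4 (by decide)
    exact ⟨⟨j, hjk⟩, hj, hdj⟩

/-- Graph on `Fin m` from a list of edges. -/
def gOf (m : ℕ) (E : List (Fin m × Fin m)) : SimpleGraph (Fin m) :=
  SimpleGraph.fromRel (fun u v => (u, v) ∈ E)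

instance (m : ℕ) (E : List (Fin m × Fin m)) : DecidableRel (gOf m E).Adj := fun u v => by
  unfold gOf
  rw [SimpleGraph.fromRel_adj]
  infer_instance

/-- The class lemma with explicit lists: `D x` are the classes at the same vertex as `x` or better
than `x`, `A v` are the classes at vertex `v`. -/
theorem win_of_lists {m k : ℕ} (H : SimpleGraph (Fin m)) (π : Fin k → Fin m)
    (D : Fin k → List (Fin k)) (A : Fin m → List (Fin k)) (conf dom T : ℕ)
    (hA : ∀ v, (A v).Nodup ∧ ∀ x, x ∈ A v ↔ π x = v)
    (hD : ∀ x : Fin k, (D x).Nodup ∧ ∀ y : Fin k, y ∈ D x ↔ (fld k dom x).testBit y = true)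
    (hsame : ∀ x y : Fin k, π y = π x → (fld k dom x).testBit y = true)
    (hconf : ∀ x y : Fin k, x ≠ y → (π x = π y ∨ H.Adj (π x) (π y)) →
      (fld k conf x).testBit y = true)
    (hker : kerBlock k conf dom T k 0 = true)
    (c : Fin k → ℕ) (g h : Fin m → ℕ)
    (hh : ∀ v, h v = ((A v).map c).sum)
    (hg : ∀ x : Fin k, 0 < c x → ((D x).map c).sum ≤ g (π x)) :
    Win H g h := by
  refine win_of_masks H π conf dom T hsame hconf hker c g h ?_ ?_
  · intro v
    rw [hh v, ← List.sum_toFinset c (hA v).1, ← Finset.sum_filter]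
    refine Finset.sum_congr ?_ (fun _ _ => rfl)
    ext x
    simp [(hA v).2 x]
  · intro x hx
    refine le_trans (le_of_eq ?_) (hg x hx)
    rw [← List.sum_toFinset c (hD x).1, ← Finset.sum_filter]
    refine Finset.sum_congr ?_ (fun _ _ => rfl)
    ext y
    simp [(hD x).2 y]

end Helper122.SFP
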