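import Pool.Agent.Helper122_SFP.Wins

/-!
# The recursive construction
-/

set_option autoImplicit false
set_option linter.unusedSectionVars false
set_option linter.unusedVariables false

namespace Helper122.SFP

open Finset

/-- A `b`-fold colouring of `G` with all lists equal to `L`. -/
def Col {V : Type} (G : SimpleGraph V) (L : Finset ℕ) (b : ℕ) (C : V → Finset ℕ) : Prop :=
  (∀ v, C v ⊆ L ∧ (C v).card = b) ∧ ∀ u v, G.Adj u v → Disjoint (C u) (C v)

/-- Upper bound property of a structure with two ports. -/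
def Up {V : Type} [DecidableEq V] (s q r : ℕ) (G : SimpleGraph V) (z y : V) : Prop :=
  ∀ b t : ℕ, t ≤ b → s * b ≤ q * t →
    Win G (fun v => if v = z then b + r * t / s else if v = y then b else 2 * b + t)
      (fun _ => b)

/-- Lower bound property of a structure with two ports. -/
def Lo {V : Type} (i κ : ℕ) (G : SimpleGraph V) (z y : V) : Prop :=
  ∀ (L : Finset ℕ) (b : ℕ) (C : V → Finset ℕ), Col G L b C →
    (2 * κ + i + 1) * b ≤ (C z ∪ C y).card + κ * L.card

/-- Full property: exact threshold `p / q`. -/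
def Full {V : Type} [DecidableEq V] (p q : ℕ) (G : SimpleGraph V) : Prop :=
  (∀ a b : ℕ, p * b ≤ q * a → Win G (fun _ => a) (fun _ => b)) ∧
  ∀ (L : Finset ℕ) (b : ℕ) (C : V → Finset ℕ), Col G L b C → p * b ≤ q * L.card

theorem card_ineq {X Y A B L : Finset ℕ} (hX : X ⊆ L) (hA : A ⊆ L) (hB : B ⊆ L)
    (hAB : Disjoint A B) (hXA : Disjoint X A) (hYB : Disjoint Y B) :
    A.card + B.card + (X ∩ Y).card ≤ L.card := by
  rw [← Finset.card_union_of_disjoint hAB]
  have h : Disjoint (A ∪ B) (X ∩ Y) := by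
    rw [Finset.disjoint_union_left]
    exact ⟨hXA.symm.mono_right Finset.inter_subset_left,
      hYB.symm.mono_right Finset.inter_subset_right⟩
  rw [← Finset.card_union_of_disjoint h]
  refine Finset.card_le_card ?_
  refine Finset.union_subset (Finset.union_subset hA hB) (Finset.inter_subset_left.trans hX)

/-! ### Base -/

theorem baseUp (s q : ℕ) (hs : 0 < s) (hsq : s < q) :
    Up s q (q - s) (gOf 4 edgesA) 0 3 := by
  intro b t htb hbt
  refine win_mono (winA b t htb) le_rfl ?_ ?_
  · have h1 : b - t ≤ (q - s) * t / s := by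
      rw [Nat.le_div_iff_mul_le hs, Nat.sub_mul, Nat.sub_mul]
      have : b * s ≤ q * t := by rw [mul_comm]; exact hbt
      rw [mul_comm t s]
      exact Nat.sub_le_sub_right this _
    intro v
    fin_cases v <;> simp
    exact tsub_le_iff_right.1 h1
  · intro v
    fin_cases v <;> simp

theorem baseLo : Lo 1 1 (gOf 4 edgesA) 0 3 := by
  intro L b C hC
  obtain ⟨hsub, hdis⟩ := hC
  have h01 := hdis 0 1 (by decide)
  have h12 := hdis 1 2 (by decide)
  have h23 := hdis 2 3 (by decide)
  have h := card_ineq (X := C 0) (Y := C 3) (hsub 0).1 (hsub 1).1 (hsub 2).1 h12 h01 h23.symm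
  have h2 := Finset.card_union_add_card_inter (C 0) (C 3)
  rw [(hsub 0).2, (hsub 3).2] at h2
  rw [(hsub 1).2, (hsub 2).2] at h
  omega

/-! ### Step with one -/

section

variable {V : Type} [DecidableEq V]

/-- Embedding of piece B. -/
def phiB (z y : V) (hzy : z ≠ y) : Fin 5 ↪ V ⊕ Fin 3 where
  toFun := ![Sum.inr 0, Sum.inr 1, Sum.inl z, Sum.inl y, Sum.inr 2]
  inj' := by
    intro a b
    fin_cases a <;> fin_cases b <;> simp [hzy, hzy.symm]

@[simp] theorem phiB_apply (z y : V) (hzy : z ≠ y) (i : Fin 5) :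
    phiB z y hzy i = (![Sum.inr 0, Sum.inr 1, Sum.inl z, Sum.inl y, Sum.inr 2] :
      Fin 5 → V ⊕ Fin 3) i := rfl

/-- The graph after a step with one. -/
def stepB (G : SimpleGraph V) (z y : V) (hzy : z ≠ y) : SimpleGraph (V ⊕ Fin 3) :=
  (gOf 5 edgesB).map (phiB z y hzy) ⊔
    G.map (Function.Embedding.inl : V ↪ V ⊕ Fin 3)

/-- Embedding of piece C. -/
def phiC (z y : V) (hzy : z ≠ y) : Fin 7 ↪ V ⊕ Fin 5 where
  toFun := ![Sum.inr 0, Sum.inr 1, Sum.inr 2, Sum.inl z, Sum.inl y, Sum.inr 3, Sum.inr 4]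
  inj' := by
    intro a b
    fin_cases a <;> fin_cases b <;> simp [hzy, hzy.symm]

@[simp] theorem phiC_apply (z y : V) (hzy : z ≠ y) (i : Fin 7) :
    phiC z y hzy i = (![Sum.inr 0, Sum.inr 1, Sum.inr 2, Sum.inl z, Sum.inl y, Sum.inr 3,
      Sum.inr 4] : Fin 7 → V ⊕ Fin 5) i := rfl

/-- The graph after a step with two. -/
def stepC (G : SimpleGraph V) (z y : V) (hzy : z ≠ y) : SimpleGraph (V ⊕ Fin 5) :=
  (gOf 7 edgesC).map (phiC z y hzy) ⊔
    G.map (Function.Embedding.inl : V ↪ V ⊕ Fin 5)

/-- Embedding of piece T. -/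
def phiT (z y : V) (hzy : z ≠ y) : Fin 6 ↪ V ⊕ Fin 4 where
  toFun := ![Sum.inr 0, Sum.inr 1, Sum.inr 2, Sum.inl z, Sum.inl y, Sum.inr 3]
  inj' := by
    intro a b
    fin_cases a <;> fin_cases b <;> simp [hzy, hzy.symm]

@[simp] theorem phiT_apply (z y : V) (hzy : z ≠ y) (i : Fin 6) :
    phiT z y hzy i = (![Sum.inr 0, Sum.inr 1, Sum.inr 2, Sum.inl z, Sum.inl y, Sum.inr 3] :
      Fin 6 → V ⊕ Fin 4) i := rfl

/-- The final graph. -/
def stepT (G : SimpleGraph V) (z y : V) (hzy : z ≠ y) : SimpleGraph (V ⊕ Fin 4) :=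
  (gOf 6 edgesT).map (phiT z y hzy) ⊔
    G.map (Function.Embedding.inl : V ↪ V ⊕ Fin 4)

variable [Fintype V]

theorem stepB_up {s q r : ℕ} (hs : 0 < s) (hsq : s < q) (hq : q < 2 * s)
    (hr : r + (q - s) ≤ s) {G : SimpleGraph V} {z y : V} (hzy : z ≠ y) (hG : Up s q r G z y) :
    Up s q (r + (q - s)) (stepB G z y hzy) (Sum.inr 2) (Sum.inr 0) := by
  intro b t htb hbt
  have hin := hG b t htb hbt
  set δ := (r + (q - s)) * t / s with hδ
  have hδt : δ ≤ t := by
    rw [hδ]
    refine Nat.div_le_of_le_mul ?_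
    exact Nat.mul_le_mul_right t hr
  have hkey : b + r * t / s ≤ t + δ := by
    have h1 : (b + r * t / s) * s ≤ (r + q) * t := by
      have h2 : r * t / s * s ≤ r * t := Nat.div_mul_le_self _ _
      nlinarith
    have h3 : t + δ = (r + q) * t / s := by
      rw [hδ, add_comm, ← Nat.add_mul_div_left _ _ hs]
      congr 1
      have : q = (q - s) + s := by omega
      calc (r + (q - s)) * t + s * t = (r + ((q - s) + s)) * t := by ring
        _ = (r + q) * t := by rw [← this]
    rw [h3]
    exact (Nat.le_div_iff_mul_le hs).2 h1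
  refine win_comp (D := Sum.elim (fun v => if v = z then t + δ else if v = y then b
    else 2 * b + t) (fun _ => b)) ?_ ?_
  · refine win_map _ ?_ ?_
    · refine win_mono (winB b t δ htb hδt (le_trans (Nat.le_add_right _ _) hkey)) le_rfl ?_ ?_
      · intro v
        fin_cases v <;> simp
      · intro v
        fin_cases v <;> simp [hzy.symm]
    · rintro (v | i) hv
      · have h1 : v ≠ z := by
          rintro rfl
          exact hv ⟨2, rfl⟩
        have h2 : v ≠ y := by
          rintro rfl
          exact hv ⟨3, rfl⟩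
        simp [h1, h2]
      · exfalso
        fin_cases i
        · exact hv ⟨0, rfl⟩
        · exact hv ⟨1, rfl⟩
        · exact hv ⟨4, rfl⟩
  · refine win_map _ ?_ ?_
    · refine win_mono hin le_rfl ?_ ?_
      · intro v
        by_cases h1 : v = z
        · simpa [h1] using hkey
        · simp [h1]
      · intro v
        exact le_rfl
    · rintro (v | i) hv
      · exact absurd ⟨v, rfl⟩ hv
      · simp

theorem stepB_lo {i κ : ℕ} {G : SimpleGraph V} {z y : V} (hzy : z ≠ y) (hG : Lo i κ G z y) :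
    Lo (i + 1) (κ + 1) (stepB G z y hzy) (Sum.inr 2) (Sum.inr 0) := by
  intro L b C hC
  obtain ⟨hsub, hdis⟩ := hC
  have hin := hG L b (fun v => C (Sum.inl v)) ⟨fun v => hsub _, by
    intro u v huv
    refine hdis _ _ (Or.inr ?_)
    rw [SimpleGraph.map_adj]
    exact ⟨u, v, huv, rfl, rfl⟩⟩
  have hadj : ∀ u v : Fin 5, (gOf 5 edgesB).Adj u v →
      Disjoint (C (phiB z y hzy u)) (C (phiB z y hzy v)) := by
    intro u v huv
    refine hdis _ _ (Or.inl ?_)
    rw [SimpleGraph.map_adj]
    exact ⟨u, v, huv, rfl, rfl⟩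
  have h01 : Disjoint (C (Sum.inr 0)) (C (Sum.inr 1)) := hadj 0 1 (by decide)
  have h1z : Disjoint (C (Sum.inr 1)) (C (Sum.inl z)) := hadj 1 2 (by decide)
  have h1y : Disjoint (C (Sum.inr 1)) (C (Sum.inl y)) := hadj 1 3 (by decide)
  have hz3 : Disjoint (C (Sum.inr 2)) (C (Sum.inl z)) := hadj 4 2 (by decide)
  have hy3 : Disjoint (C (Sum.inr 2)) (C (Sum.inl y)) := hadj 4 3 (by decide)
  have h := card_ineq (X := C (Sum.inr 0)) (Y := C (Sum.inr 2)) (A := C (Sum.inr 1))
    (B := C (Sum.inl z) ∪ C (Sum.inl y)) (L := L) (hsub _).1 (hsub _).1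
    (Finset.union_subset (hsub _).1 (hsub _).1)
    (Finset.disjoint_union_right.2 ⟨h1z, h1y⟩) h01 (Finset.disjoint_union_right.2 ⟨hz3, hy3⟩)
  have h2 := Finset.card_union_add_card_inter (C (Sum.inr 0)) (C (Sum.inr 2))
  rw [(hsub _).2, (hsub _).2] at h2
  rw [(hsub _).2] at h
  rw [Finset.union_comm (C (Sum.inr 2))]
  nlinarith

theorem stepC_up {s q r : ℕ} (hs : 0 < s) (hsq : s < q) (hq : q < 2 * s)
    (hr : s < r + (q - s)) (hrs : r ≤ s) {G : SimpleGraph V} {z y : V} (hzy : z ≠ y)
    (hG : Up s q r G z y) :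
    Up s q (r + (q - s) - s) (stepC G z y hzy) (Sum.inr 4) (Sum.inr 0) := by
  intro b t htb hbt
  have hin := hG b t htb hbt
  set δ := (r + (q - s) - s) * t / s with hδ
  set δ' := r * t / s with hδ'
  have hδt : δ ≤ t := by
    rw [hδ]
    refine Nat.div_le_of_le_mul ?_
    refine Nat.mul_le_mul_right t ?_
    omega
  have hδt' : δ' ≤ t := by
    rw [hδ']
    refine Nat.div_le_of_le_mul ?_
    exact Nat.mul_le_mul_right t hrs
  have hb2 : b ≤ 2 * t := by
    by_contra hcon
    have h1 : 2 * t < b := Nat.not_le.1 hcon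
    have h2 : s * (2 * t) < s * b := Nat.mul_lt_mul_of_pos_left h1 hs
    have h3 : q * t ≤ 2 * s * t := Nat.mul_le_mul_right t hq.le
    have h4 : 2 * s * t = s * (2 * t) := by ring
    omega
  have hkey : b + δ' ≤ 2 * t + δ := by
    have h1 : (b + δ') * s ≤ (r + q) * t := by
      have h2 : δ' * s ≤ r * t := Nat.div_mul_le_self _ _
      nlinarith
    have h3 : 2 * t + δ = (r + q) * t / s := by
      have h4 : (r + q) * t = (r + (q - s) - s) * t + s * (2 * t) := by
        have h5 : r + q = (r + (q - s) - s) + 2 * s := by omega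
        calc (r + q) * t = ((r + (q - s) - s) + 2 * s) * t := by rw [← h5]
          _ = (r + (q - s) - s) * t + s * (2 * t) := by ring
      rw [h4, Nat.add_mul_div_left _ _ hs, ← hδ, add_comm]
    rw [h3]
    exact (Nat.le_div_iff_mul_le hs).2 h1
  refine win_comp (D := Sum.elim (fun v => if v = z then b + δ' else if v = y then b
    else 2 * b + t) (fun _ => b)) ?_ ?_
  · refine win_map _ ?_ ?_
    · refine win_mono (winC b t δ δ' htb hδt hδt' hb2 hkey) le_rfl ?_ ?_
      · intro v
        fin_cases v <;> simp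
      · intro v
        fin_cases v <;> simp [hzy.symm]
    · rintro (v | i) hv
      · have h1 : v ≠ z := by
          rintro rfl
          exact hv ⟨3, rfl⟩
        have h2 : v ≠ y := by
          rintro rfl
          exact hv ⟨4, rfl⟩
        simp [h1, h2]
      · exfalso
        fin_cases i
        · exact hv ⟨0, rfl⟩
        · exact hv ⟨1, rfl⟩
        · exact hv ⟨2, rfl⟩
        · exact hv ⟨5, rfl⟩
        · exact hv ⟨6, rfl⟩
  · refine win_map _ ?_ ?_
    · exact hin
    · rintro (v | i) hv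
      · exact absurd ⟨v, rfl⟩ hv
      · simp

theorem stepC_lo {i κ : ℕ} {G : SimpleGraph V} {z y : V} (hzy : z ≠ y) (hG : Lo i κ G z y) :
    Lo (i + 1) (κ + 2) (stepC G z y hzy) (Sum.inr 4) (Sum.inr 0) := by
  intro L b C hC
  obtain ⟨hsub, hdis⟩ := hC
  have hin := hG L b (fun v => C (Sum.inl v)) ⟨fun v => hsub _, by
    intro u v huv
    refine hdis _ _ (Or.inr ?_)
    rw [SimpleGraph.map_adj]
    exact ⟨u, v, huv, rfl, rfl⟩⟩
  have hadj : ∀ u v : Fin 7, (gOf 7 edgesC).Adj u v →
      Disjoint (C (phiC z y hzy u)) (C (phiC z y hzy v)) := by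
    intro u v huv
    refine hdis _ _ (Or.inl ?_)
    rw [SimpleGraph.map_adj]
    exact ⟨u, v, huv, rfl, rfl⟩
  have h01 : Disjoint (C (Sum.inr 0)) (C (Sum.inr 1)) := hadj 0 1 (by decide)
  have h12 : Disjoint (C (Sum.inr 1)) (C (Sum.inr 2)) := hadj 1 2 (by decide)
  have h2z : Disjoint (C (Sum.inr 2)) (C (Sum.inl z)) := hadj 2 3 (by decide)
  have h2y : Disjoint (C (Sum.inr 2)) (C (Sum.inl y)) := hadj 2 4 (by decide)
  have h4z : Disjoint (C (Sum.inr 3)) (C (Sum.inl z)) := hadj 5 3 (by decide)
  have h4y : Disjoint (C (Sum.inr 3)) (C (Sum.inl y)) := hadj 5 4 (by decide)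
  have h45 : Disjoint (C (Sum.inr 3)) (C (Sum.inr 4)) := hadj 5 6 (by decide)
  have h := card_ineq (X := C (Sum.inr 1)) (Y := C (Sum.inr 3)) (A := C (Sum.inr 2))
    (B := C (Sum.inl z) ∪ C (Sum.inl y)) (L := L) (hsub _).1 (hsub _).1
    (Finset.union_subset (hsub _).1 (hsub _).1)
    (Finset.disjoint_union_right.2 ⟨h2z, h2y⟩) h12 (Finset.disjoint_union_right.2 ⟨h4z, h4y⟩)
  have h2 := Finset.card_union_add_card_inter (C (Sum.inr 1)) (C (Sum.inr 3))
  have h3 : (C (Sum.inr 0) ∩ C (Sum.inr 4)).card + (C (Sum.inr 1) ∪ C (Sum.inr 3)).card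
      ≤ L.card := by
    rw [← Finset.card_union_of_disjoint]
    · refine Finset.card_le_card ?_
      exact Finset.union_subset (Finset.inter_subset_left.trans (hsub _).1)
        (Finset.union_subset (hsub _).1 (hsub _).1)
    · rw [Finset.disjoint_union_right]
      exact ⟨h01.mono_left Finset.inter_subset_left,
        h45.symm.mono_left Finset.inter_subset_right⟩
  have h4 := Finset.card_union_add_card_inter (C (Sum.inr 0)) (C (Sum.inr 4))
  rw [(hsub _).2, (hsub _).2] at h2 h4
  rw [(hsub _).2] at h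
  rw [Finset.union_comm (C (Sum.inr 4))]
  nlinarith

theorem stepT_full {s q r κ i : ℕ} (hs : 0 < s) (hsq : s < q) (hq : q < 2 * s)
    (hr : r + q = 2 * s) (hκ : κ + 2 = q) (hi : i + 1 = s) {G : SimpleGraph V} {z y : V}
    (hzy : z ≠ y) (hG : Up s q r G z y) (hL : Lo i κ G z y) :
    Full (2 * q + s) q (stepT G z y hzy) := by
  constructor
  · -- upper bound
    have main : ∀ b t : ℕ, t ≤ b → s * b ≤ q * t →
        Win (stepT G z y hzy) (fun _ => 2 * b + t) (fun _ => b) := by
      intro b t htb hbt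
      have hin := hG b t htb hbt
      set δ' := r * t / s with hδ'
      have hδt' : δ' ≤ t := by
        rw [hδ']
        refine Nat.div_le_of_le_mul ?_
        refine Nat.mul_le_mul_right t ?_
        omega
      have hb2 : b ≤ 2 * t := by
        by_contra hcon
        have h1 : 2 * t < b := Nat.not_le.1 hcon
        have h2 : s * (2 * t) < s * b := Nat.mul_lt_mul_of_pos_left h1 hs
        have h3 : q * t ≤ 2 * s * t := Nat.mul_le_mul_right t hq.le
        have h4 : 2 * s * t = s * (2 * t) := by ring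
        omega
      have hkey : b + δ' ≤ 2 * t := by
        have h1 : (b + δ') * s ≤ 2 * t * s := by
          have h2 : δ' * s ≤ r * t := Nat.div_mul_le_self _ _
          have h3 : (r + q) * t = 2 * s * t := by rw [hr]
          nlinarith
        exact Nat.le_of_mul_le_mul_right h1 hs
      refine win_comp (D := Sum.elim (fun v => if v = z then b + δ' else if v = y then b
        else 2 * b + t) (fun _ => b)) ?_ ?_
      · refine win_map _ ?_ ?_
        · refine win_mono (winT b t δ' htb hδt' hb2 hkey) le_rfl ?_ ?_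
          · intro v
            fin_cases v <;> simp
            omega
          · intro v
            fin_cases v <;> simp [hzy.symm]
        · rintro (v | i) hv
          · have h1 : v ≠ z := by
              rintro rfl
              exact hv ⟨3, rfl⟩
            have h2 : v ≠ y := by
              rintro rfl
              exact hv ⟨4, rfl⟩
            simp [h1, h2]
          · exfalso
            fin_cases i
            · exact hv ⟨0, rfl⟩
            · exact hv ⟨1, rfl⟩
            · exact hv ⟨2, rfl⟩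
            · exact hv ⟨5, rfl⟩
      · refine win_map _ ?_ ?_
        · exact hin
        · rintro (v | i) hv
          · exact absurd ⟨v, rfl⟩ hv
          · simp
    intro a b hab
    have ha : 2 * b ≤ a := by
      by_contra hcon
      have h1 : a < 2 * b := Nat.not_le.1 hcon
      have h2 : q * a ≤ q * (2 * b) := Nat.mul_le_mul_left q h1.le
      have h3 : (2 * q + s) * b = q * (2 * b) + s * b := by ring
      have hb : 0 < b := by omega
      have h4 : 0 < s * b := Nat.mul_pos hs hb
      omega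
    obtain ⟨t, rfl⟩ := Nat.exists_eq_add_of_le ha
    have hst : s * b ≤ q * t := by
      have h3 : (2 * q + s) * b = q * (2 * b) + s * b := by ring
      have h4 : q * (2 * b + t) = q * (2 * b) + q * t := by ring
      omega
    rcases le_total t b with htb | htb
    · exact main b t htb hst
    · refine win_mono (main b b le_rfl (Nat.mul_le_mul_right b hsq.le)) le_rfl ?_
        (fun _ => le_rfl)
      intro v
      omega
  · intro L b C hC
    obtain ⟨hsub, hdis⟩ := hC
    have hin := hL L b (fun v => C (Sum.inl v)) ⟨fun v => hsub _, by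
      intro u v huv
      refine hdis _ _ (Or.inr ?_)
      rw [SimpleGraph.map_adj]
      exact ⟨u, v, huv, rfl, rfl⟩⟩
    have hadj : ∀ u v : Fin 6, (gOf 6 edgesT).Adj u v →
        Disjoint (C (phiT z y hzy u)) (C (phiT z y hzy v)) := by
      intro u v huv
      refine hdis _ _ (Or.inl ?_)
      rw [SimpleGraph.map_adj]
      exact ⟨u, v, huv, rfl, rfl⟩
    have h01 : Disjoint (C (Sum.inr 0)) (C (Sum.inr 1)) := hadj 0 1 (by decide)
    have h12 : Disjoint (C (Sum.inr 1)) (C (Sum.inr 2)) := hadj 1 2 (by decide)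
    have h2z : Disjoint (C (Sum.inr 2)) (C (Sum.inl z)) := hadj 2 3 (by decide)
    have h2y : Disjoint (C (Sum.inr 2)) (C (Sum.inl y)) := hadj 2 4 (by decide)
    have h4z : Disjoint (C (Sum.inr 3)) (C (Sum.inl z)) := hadj 5 3 (by decide)
    have h4y : Disjoint (C (Sum.inr 3)) (C (Sum.inl y)) := hadj 5 4 (by decide)
    have h45 : Disjoint (C (Sum.inr 0)) (C (Sum.inr 3)) := hadj 0 5 (by decide)
    have h := card_ineq (X := C (Sum.inr 1)) (Y := C (Sum.inr 3)) (A := C (Sum.inr 2))
      (B := C (Sum.inl z) ∪ C (Sum.inl y)) (L := L) (hsub _).1 (hsub _).1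
      (Finset.union_subset (hsub _).1 (hsub _).1)
      (Finset.disjoint_union_right.2 ⟨h2z, h2y⟩) h12
      (Finset.disjoint_union_right.2 ⟨h4z, h4y⟩)
    have h2 := Finset.card_union_add_card_inter (C (Sum.inr 1)) (C (Sum.inr 3))
    have h3 : (C (Sum.inr 0)).card + (C (Sum.inr 1) ∪ C (Sum.inr 3)).card ≤ L.card := by
      rw [← Finset.card_union_of_disjoint]
      · refine Finset.card_le_card ?_
        exact Finset.union_subset (hsub _).1 (Finset.union_subset (hsub _).1 (hsub _).1)
      · rw [Finset.disjoint_union_right]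
        exact ⟨h01, h45⟩
    rw [(hsub _).2, (hsub _).2] at h2
    rw [(hsub _).2] at h h3
    subst hκ
    subst hi
    nlinarith

end

end Helper122.SFP
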