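import Pool.Agent.Helper122_SFP.Tail

/-!
# The pieces of the chain: core, tail and closing vertex
-/

set_option autoImplicit false
set_option linter.unusedSectionVars false
set_option linter.unusedVariables false

namespace Helper122.SFP

open Finset

section

variable {V : Type} [DecidableEq V] [Fintype V]

/-- Star with centre `none` and leaves in `S`. -/
def starS (S : V → Prop) : SimpleGraph (Option V) :=
  SimpleGraph.fromRel (fun u v => u = none ∧ ∃ w, S w ∧ v = some w)

theorem starS_adj (S : V → Prop) (w : V) (hw : S w) : (starS S).Adj none (some w) := by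
  rw [starS, SimpleGraph.fromRel_adj]
  exact ⟨by simp, Or.inl ⟨rfl, w, hw, rfl⟩⟩

/-- Add a vertex joined to `S`. -/
def coneG (G : SimpleGraph V) (S : V → Prop) : SimpleGraph (Option V) :=
  starS S ⊔ G.map (Function.Embedding.some : V ↪ Option V)

theorem starS_win (S : V → Prop) (g h : Option V → ℕ) (h1 : h none ≤ g none)
    (h2 : ∀ v, S v → h (some v) + h none ≤ g (some v)) (h3 : ∀ v, h (some v) ≤ g (some v)) :
    Win (starS S) g h := by
  refine win_of_closed (fun g h => h none ≤ g none ∧
    (∀ v, S v → h (some v) + h none ≤ g (some v)) ∧ ∀ v, h (some v) ≤ g (some v))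
    ?_ g h ⟨h1, h2, h3⟩
  clear h1 h2 h3 g h
  rintro g h ⟨h1, h2, h3⟩
  right
  refine ⟨?_, ?_⟩
  · rintro (_ | v)
    · exact h1
    · exact h3 v
  · intro M hne hpos
    classical
    by_cases hM : none ∈ M
    · have h5 := hpos none hM
      refine ⟨M.filter (fun u => u = none ∨ ∃ w, ¬ S w ∧ u = some w), Finset.filter_subset _ _,
        ?_, ?_, ?_, ?_⟩
      · intro u hu v hv huv hadj
        have hu' := (Finset.mem_filter.1 (Finset.mem_coe.1 hu)).2
        have hv' := (Finset.mem_filter.1 (Finset.mem_coe.1 hv)).2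
        rw [starS, SimpleGraph.fromRel_adj] at hadj
        rcases hadj.2 with ⟨_, w, hw, rfl⟩ | ⟨_, w, hw, rfl⟩
        · rcases hv' with h6 | ⟨w', hw', h6⟩
          · simp at h6
          · rw [Option.some_injective _ h6] at hw
            exact hw' hw
        · rcases hu' with h6 | ⟨w', hw', h6⟩
          · simp at h6
          · rw [Option.some_injective _ h6] at hw
            exact hw' hw
      · have hmem : none ∈ M.filter (fun u => u = none ∨ ∃ w, ¬ S w ∧ u = some w) := by
          simp [hM]
        simp only [if_pos hM, if_pos hmem]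
        omega
      · intro v hv
        have h4 := h2 v hv
        have hmem : none ∈ M.filter (fun u => u = none ∨ ∃ w, ¬ S w ∧ u = some w) := by
          simp [hM]
        have hmem' : some v ∉ M.filter (fun u => u = none ∨ ∃ w, ¬ S w ∧ u = some w) := by
          simp [hv]
        simp only [if_pos hmem, if_neg hmem']
        split_ifs <;> omega
      · intro v
        by_cases hv : S v
        · have h4 := h2 v hv
          have hmem' : some v ∉ M.filter (fun u => u = none ∨ ∃ w, ¬ S w ∧ u = some w) := by
            simp [hv]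
          simp only [if_neg hmem']
          split_ifs <;> omega
        · have h4 := h3 v
          by_cases hvM : some v ∈ M
          · have hmem' : some v ∈ M.filter (fun u => u = none ∨ ∃ w, ¬ S w ∧ u = some w) := by
              simp [hv, hvM]
            simp only [if_pos hmem', if_pos hvM]
            omega
          · have hmem' : some v ∉ M.filter (fun u => u = none ∨ ∃ w, ¬ S w ∧ u = some w) := by
              simp [hvM]
            simp only [if_neg hmem', if_neg hvM]
            exact h4
    · refine ⟨M, Finset.Subset.refl _, ?_, ?_, ?_, ?_⟩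
      · intro u hu v hv huv hadj
        rw [starS, SimpleGraph.fromRel_adj] at hadj
        rcases hadj.2 with ⟨h5, _⟩ | ⟨h5, _⟩
        · exact hM (h5 ▸ Finset.mem_coe.1 hu)
        · exact hM (h5 ▸ Finset.mem_coe.1 hv)
      · simp only [if_neg hM]
        exact h1
      · intro v hv
        have h4 := h2 v hv
        simp only [if_neg hM]
        by_cases hv : some v ∈ M
        · have h5 := hpos _ hv
          simp only [if_pos hv]
          omega
        · simp only [if_neg hv]
          exact h4
      · intro v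
        have h4 := h3 v
        by_cases hv : some v ∈ M
        · have h5 := hpos _ hv
          simp only [if_pos hv]
          omega
        · simp only [if_neg hv]
          exact h4

theorem cone_win {G : SimpleGraph V} {g₁ h₁ : V → ℕ} (hw : Win G g₁ h₁) (S : V → Prop)
    (g h : Option V → ℕ) (h0 : h none ≤ g none) (hh : ∀ v, h (some v) = h₁ v)
    (hg : ∀ v, S v → g₁ v + h none ≤ g (some v)) (hg' : ∀ v, g₁ v ≤ g (some v)) :
    Win (coneG G S) g h := by
  refine win_comp (D := fun v => Option.elim v (h none) g₁) ?_ ?_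
  · refine starS_win S _ _ h0 ?_ ?_
    · intro v hv
      exact hg v hv
    · intro v
      exact hg' v
  · refine win_map _ ?_ ?_
    · have e : (fun u => h ((Function.Embedding.some : V ↪ Option V) u)) = h₁ := funext hh
      rw [e]
      exact hw
    · rintro (_ | v) hv
      · exact le_rfl
      · exact absurd ⟨v, rfl⟩ hv

theorem cone_col {G : SimpleGraph V} {S : V → Prop} {L : Finset ℕ} {b : ℕ}
    {C : Option V → Finset ℕ} (hC : Col (coneG G S) L b C) :
    Col G L b (fun v => C (some v)) ∧ ∀ v, S v → Disjoint (C none) (C (some v)) := by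
  refine ⟨⟨fun v => hC.1 _, ?_⟩, ?_⟩
  · intro u v huv
    refine hC.2 _ _ (Or.inr ?_)
    rw [SimpleGraph.map_adj]
    exact ⟨u, v, huv, rfl, rfl⟩
  · intro v hv
    exact hC.2 _ _ (Or.inl (starS_adj S v hv))

end

theorem coreR_bag {L : Finset ℕ} {b : ℕ} {C : Fin 5 → Finset ℕ} (hC : Col (gOf 5 edgesR) L b C) :
    Bag C (fun v => ER v = true) (C 3 ∪ C 4) ∧ (C 3 ∪ C 4).card = 2 * b ∧
      Disjoint (C 3 ∪ C 4) (C 1 ∪ C 2) ∧ Disjoint (C 0) (C 1 ∪ C 2) := by
  obtain ⟨hsub, hdis⟩ := hC
  have h34 := hdis 3 4 (by decide)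
  have h31 := hdis 3 1 (by decide)
  have h32 := hdis 3 2 (by decide)
  have h41 := hdis 4 1 (by decide)
  have h42 := hdis 4 2 (by decide)
  have h01 := hdis 0 1 (by decide)
  have h02 := hdis 0 2 (by decide)
  refine ⟨?_, ?_, ?_, ?_⟩
  · intro c
    rw [Finset.mem_union]
    constructor
    · rintro (h | h)
      · exact ⟨3, rfl, h⟩
      · exact ⟨4, rfl, h⟩
    · rintro ⟨v, hv, hc⟩
      fin_cases v
      · simp [ER] at hv
      · simp [ER] at hv
      · simp [ER] at hv
      · exact Or.inl hc
      · exact Or.inr hc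
  · rw [Finset.card_union_of_disjoint h34, (hsub _).2, (hsub _).2]
    ring
  · exact Finset.disjoint_union_left.2 ⟨Finset.disjoint_union_right.2 ⟨h31, h32⟩,
      Finset.disjoint_union_right.2 ⟨h41, h42⟩⟩
  · exact Finset.disjoint_union_right.2 ⟨h01, h02⟩

theorem coreS_bag {L : Finset ℕ} {b : ℕ} {C : Fin 4 → Finset ℕ} (hC : Col (gOf 4 edgesS) L b C) :
    Bag C (fun v => ES v = true) (C 2 ∪ C 3) ∧ (C 2 ∪ C 3).card = 2 * b ∧
      Disjoint (C 2 ∪ C 3) (C 0 ∪ C 1) := by
  obtain ⟨hsub, hdis⟩ := hC
  have h34 := hdis 2 3 (by decide)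
  have h31 := hdis 2 0 (by decide)
  have h32 := hdis 2 1 (by decide)
  have h41 := hdis 3 0 (by decide)
  have h42 := hdis 3 1 (by decide)
  refine ⟨?_, ?_, ?_⟩
  · intro c
    rw [Finset.mem_union]
    constructor
    · rintro (h | h)
      · exact ⟨2, rfl, h⟩
      · exact ⟨3, rfl, h⟩
    · rintro ⟨v, hv, hc⟩
      fin_cases v
      · simp [ES] at hv
      · simp [ES] at hv
      · exact Or.inl hc
      · exact Or.inr hc
  · rw [Finset.card_union_of_disjoint h34, (hsub _).2, (hsub _).2]
    ring
  · exact Finset.disjoint_union_left.2 ⟨Finset.disjoint_union_right.2 ⟨h31, h32⟩,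
      Finset.disjoint_union_right.2 ⟨h41, h42⟩⟩

/-- The end of the tail, seen from a vertex `B` joined to the end bag. -/
theorem end_ineq {L W X B : Finset ℕ} {b i : ℕ} (hX : X ⊆ L) (hB : B ⊆ L) (hW : W ⊆ L)
    (hX2 : X.card = 2 * b) (hB2 : B.card = b) (hBX : Disjoint B X)
    (hXW : (X ∩ W).card + 3 * i * b ≤ i * L.card) :
    W.card + (3 * i + 3) * b ≤ (B ∩ W).card + (i + 1) * L.card := by
  have e2 : (B \ W).card + (X \ W).card + W.card ≤ L.card := by
    rw [← Finset.card_union_of_disjoint
      ((hBX.mono_left Finset.sdiff_subset).mono_right Finset.sdiff_subset),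
      ← Finset.card_union_of_disjoint]
    · exact Finset.card_le_card (Finset.union_subset (Finset.union_subset
        (Finset.sdiff_subset.trans hB) (Finset.sdiff_subset.trans hX)) hW)
    · exact Finset.disjoint_union_left.2 ⟨Finset.sdiff_disjoint, Finset.sdiff_disjoint⟩
  have e3 : (B \ W).card + (B ∩ W).card = b := by
    rw [Finset.card_sdiff_add_card_inter, hB2]
  have e4 : (X \ W).card + (X ∩ W).card = 2 * b := by
    rw [Finset.card_sdiff_add_card_inter, hX2]
  have e5 : (3 * i + 3) * b = 3 * i * b + 3 * b := by ring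
  have e6 : (i + 1) * L.card = i * L.card + L.card := by ring
  omega

/-- Level piece: inner ports `z`, `y`, new heavy port `p`, new light port `l`. -/
theorem pieceR (n : ℕ) : ∃ (U : Type) (_ : Fintype U) (_ : DecidableEq U) (H : SimpleGraph U)
    (z y p l : U), z ≠ y ∧ p ≠ z ∧ p ≠ y ∧ l ≠ z ∧ l ≠ y ∧ p ≠ l ∧
    (∀ b t δ δ', t ≤ b → δ ≤ t → δ' ≤ t → b + δ' ≤ (n + 1) * t + δ →
      Win H (fun u => if u = p then b + δ else if u = l then b else 3 * b + t)
        (fun u => if u = z then b + δ' else b)) ∧
    ∀ L b C, Col H L b C →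
      (C z ∪ C y).card + (3 * n + 4) * b ≤ (C p ∪ C l).card + (n + 1) * L.card := by
  obtain ⟨V, _, _, G, E, ι, hadj, hE, hup, hlo⟩ := tail (gOf 5 edgesR) (fun v => ER v = true) n
  have hι : ∀ i j : Fin 5, i ≠ j → ι i ≠ ι j := fun i j h h' => h (ι.injective h')
  refine ⟨Option V, inferInstance, inferInstance, coneG G E, some (ι 1), some (ι 2),
    some (ι 0), none, ?_, ?_, ?_, ?_, ?_, ?_, ?_, ?_⟩
  · exact fun h => hι 1 2 (by decide) (Option.some_injective _ h)
  · exact fun h => hι 0 1 (by decide) (Option.some_injective _ h)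
  · exact fun h => hι 0 2 (by decide) (Option.some_injective _ h)
  · simp
  · simp
  · simp
  · intro b t δ δ' htb hδ hδ' hkey
    classical
    have hhub := hubR b t δ δ' (min ((0 + n) * t) b) (b - min ((0 + n) * t) b) htb hδ hδ'
      (by omega) (by
        have e : (n + 1) * t = (0 + n) * t + t := by ring
        rw [e] at hkey
        omega)
    have h1 := hup b t 0 _ _ (fun v => if v = ι 0 then b + δ else 3 * b + t)
      (fun v => if v = ι 1 then b + δ' else b) hhub (by
        intro v
        fin_cases v <;> simp) (by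
        intro v hv
        exact if_neg (fun h => hv 0 h.symm)) (by
        intro v
        fin_cases v <;> simp) (by
        intro v hv
        exact if_neg (fun h => hv 1 h.symm))
    rw [Nat.zero_mul, Nat.zero_min, Nat.sub_zero] at h1
    refine cone_win h1.win E _ _ ?_ ?_ ?_ ?_
    · simp
    · intro v
      simp
    · intro v hv
      have hv0 : v ≠ ι 0 := by
        rintro rfl
        rcases hE _ hv with ⟨u, hu, hu'⟩ | hu
        · rw [ι.injective hu'] at hu
          simp [ER] at hu
        · exact hu 0 rfl
      simp [hv, hv0]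
      omega
    · intro v
      simp
      split_ifs <;> omega
  · intro L b C hC
    obtain ⟨hCV, hcone⟩ := cone_col hC
    have hC0 : Col (gOf 5 edgesR) L b (fun v => C (some (ι v))) :=
      ⟨fun v => hC.1 _, fun u v huv => hCV.2 _ _ (hadj u v huv)⟩
    obtain ⟨hb1, hb2, hb3, hb4⟩ := coreR_bag hC0
    have hWL : C (some (ι 1)) ∪ C (some (ι 2)) ⊆ L :=
      Finset.union_subset (hC.1 _).1 (hC.1 _).1
    obtain ⟨X, hX, hX2, hXW⟩ := hlo L _ _ b _ hCV hWL hb1 hb2 hb3
    have hXL : X ⊆ L := by
      intro c hc
      obtain ⟨v, hv, hcv⟩ := (hX c).1 hc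
      exact (hC.1 _).1 hcv
    have hBX : Disjoint (C none) X := by
      rw [Finset.disjoint_left]
      intro c hc hcX
      obtain ⟨v, hv, hcv⟩ := (hX c).1 hcX
      exact Finset.disjoint_left.1 (hcone v hv) hc hcv
    have h2 := end_ineq hXL (hC.1 none).1 hWL hX2 (hC.1 none).2 hBX hXW
    have h3 : (C (some (ι 0))).card + (C none ∩ (C (some (ι 1)) ∪ C (some (ι 2)))).card ≤
        (C (some (ι 0)) ∪ C none).card := by
      rw [← Finset.card_union_of_disjoint (hb4.mono_right Finset.inter_subset_right)]
      exact Finset.card_le_card (Finset.union_subset_union (Finset.Subset.refl _)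
        Finset.inter_subset_left)
    rw [(hC.1 _).2] at h3
    have e5 : (3 * n + 4) * b = (3 * n + 3) * b + b := by ring
    omega

/-- Top piece. -/
theorem pieceS (n : ℕ) : ∃ (U : Type) (_ : Fintype U) (_ : DecidableEq U) (H : SimpleGraph U)
    (z y : U), z ≠ y ∧
    (∀ b t δ', t ≤ b → δ' ≤ t → b + δ' ≤ (n + 1) * t →
      Win H (fun _ => 3 * b + t) (fun u => if u = z then b + δ' else b)) ∧
    ∀ L b C, Col H L b C → (C z ∪ C y).card + (3 * n + 3) * b ≤ (n + 1) * L.card := by
  obtain ⟨V, _, _, G, E, ι, hadj, hE, hup, hlo⟩ := tail (gOf 4 edgesS) (fun v => ES v = true) n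
  have hι : ∀ i j : Fin 4, i ≠ j → ι i ≠ ι j := fun i j h h' => h (ι.injective h')
  refine ⟨Option V, inferInstance, inferInstance, coneG G (fun v => E v ∨ v = ι 0 ∨ v = ι 1),
    some (ι 0), some (ι 1), ?_, ?_, ?_⟩
  · exact fun h => hι 0 1 (by decide) (Option.some_injective _ h)
  · intro b t δ' htb hδ' hkey
    classical
    have hhub := hubS b t δ' (min ((0 + n) * t) b) (b - min ((0 + n) * t) b) htb hδ'
      (by omega) (by
        have e : (n + 1) * t = (0 + n) * t + t := by ring
        rw [e] at hkey
        omega)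
    have h1 := hup b t 0 _ _ (fun v => if v = ι 0 ∨ v = ι 1 then 2 * b + t else 3 * b + t)
      (fun v => if v = ι 0 then b + δ' else b) hhub (by
        intro v
        fin_cases v <;> simp) (by
        intro v hv
        refine if_neg ?_
        rintro (h | h)
        · exact hv 0 h.symm
        · exact hv 1 h.symm) (by
        intro v
        fin_cases v <;> simp) (by
        intro v hv
        exact if_neg (fun h => hv 0 h.symm))
    rw [Nat.zero_mul, Nat.zero_min, Nat.sub_zero] at h1
    refine cone_win h1.win _ _ _ ?_ ?_ ?_ ?_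
    · simp
      omega
    · intro v
      simp
    · intro v hv
      by_cases hv0 : v = ι 0 ∨ v = ι 1
      · have hEv : ¬ E v := by
          intro hEv
          rcases hE _ hEv with ⟨u, hu, hu'⟩ | hu
          · rcases hv0 with h | h
            · rw [h] at hu'
              rw [ι.injective hu'] at hu
              simp [ES] at hu
            · rw [h] at hu'
              rw [ι.injective hu'] at hu
              simp [ES] at hu
          · rcases hv0 with h | h
            · exact hu 0 h.symm
            · exact hu 1 h.symm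
        simp only [if_neg hEv, if_pos hv0]
        simp
        omega
      · have hEv : E v := by
          rcases hv with h | h
          · exact h
          · exact absurd h hv0
        simp only [if_pos hEv, if_neg hv0]
        simp
        omega
    · intro v
      split_ifs <;> omega
  · intro L b C hC
    obtain ⟨hCV, hcone⟩ := cone_col hC
    have hC0 : Col (gOf 4 edgesS) L b (fun v => C (some (ι v))) :=
      ⟨fun v => hC.1 _, fun u v huv => hCV.2 _ _ (hadj u v huv)⟩
    obtain ⟨hb1, hb2, hb3⟩ := coreS_bag hC0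
    have hWL : C (some (ι 0)) ∪ C (some (ι 1)) ⊆ L :=
      Finset.union_subset (hC.1 _).1 (hC.1 _).1
    obtain ⟨X, hX, hX2, hXW⟩ := hlo L _ _ b _ hCV hWL hb1 hb2 hb3
    have hXL : X ⊆ L := by
      intro c hc
      obtain ⟨v, hv, hcv⟩ := (hX c).1 hc
      exact (hC.1 _).1 hcv
    have hBX : Disjoint (C none) X := by
      rw [Finset.disjoint_left]
      intro c hc hcX
      obtain ⟨v, hv, hcv⟩ := (hX c).1 hcX
      exact Finset.disjoint_left.1 (hcone v (Or.inl hv)) hc hcv
    have h2 := end_ineq hXL (hC.1 none).1 hWL hX2 (hC.1 none).2 hBX hXW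
    have h3 : C none ∩ (C (some (ι 0)) ∪ C (some (ι 1))) = ∅ := by
      rw [← Finset.disjoint_iff_inter_eq_empty]
      exact Finset.disjoint_union_right.2 ⟨hcone _ (Or.inr (Or.inl rfl)),
        hcone _ (Or.inr (Or.inr rfl))⟩
    rw [h3, Finset.card_empty, zero_add] at h2
    exact h2

end Helper122.SFP
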