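import Pool.Agent.Helper122_SFP.Kernel

/-!
# Kernel systems and their extension by a clique bag
-/

set_option autoImplicit false
set_option linter.unusedSectionVars false
set_option linter.unusedVariables false

namespace Helper122.SFP

open Finset

/-- `(π, dom)` on the graph `G`: classes at the same vertex dominate each other, and each set of
present classes has a kernel. -/
structure IsKer {V K : Type} (G : SimpleGraph V) (π : K → V) (dom : K → K → Prop) : Prop where
  same : ∀ x y, π y = π x → dom x y
  ker : ∀ P : K → Prop, ∃ Q : K → Prop, (∀ x, Q x → P x) ∧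
    (∀ x y, Q x → Q y → x ≠ y → π x ≠ π y ∧ ¬ G.Adj (π x) (π y)) ∧
    ∀ x, P x → ∃ y, Q y ∧ dom x y

open Classical in
/-- Class lemma for arbitrary finite types. -/
theorem win_of_ker {V K : Type} [Fintype V] [DecidableEq V] [Fintype K] {G : SimpleGraph V}
    {π : K → V} {dom : K → K → Prop} (hk : IsKer G π dom)
    (c : K → ℕ) (g h : V → ℕ)
    (hh : ∀ v, h v = ∑ x, if π x = v then c x else 0)
    (hg : ∀ x, 0 < c x → (∑ y, if dom x y then c y else 0) ≤ g (π x)) :
    Win G g h := by
  refine win_of_closed (fun g h => ∃ c : K → ℕ,
    (∀ v, h v = ∑ x, if π x = v then c x else 0) ∧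
    (∀ x, 0 < c x → (∑ y, if dom x y then c y else 0) ≤ g (π x))) ?_ g h ⟨c, hh, hg⟩
  clear hh hg c g h
  rintro g h ⟨c, hh, hg⟩
  right
  refine ⟨?_, ?_⟩
  · intro v
    rcases Nat.eq_zero_or_pos (h v) with h0 | hpos
    · omega
    · rw [hh v] at hpos
      obtain ⟨x, -, hx⟩ := Finset.exists_ne_zero_of_sum_ne_zero (Nat.pos_iff_ne_zero.1 hpos)
      by_cases hxv : π x = v
      · rw [if_pos hxv] at hx
        have h1 := hg x (Nat.pos_of_ne_zero hx)
        rw [hxv] at h1
        refine le_trans ?_ h1
        rw [hh v]
        refine Finset.sum_le_sum ?_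
        intro y _
        by_cases hy : π y = v
        · rw [if_pos hy, if_pos (hk.same x y (hy.trans hxv.symm))]
        · rw [if_neg hy]
          exact Nat.zero_le _
      · rw [if_neg hxv] at hx
        exact absurd rfl hx
  · intro M hne hpos
    obtain ⟨Q, hQP, hQi, hQk⟩ := hk.ker (fun x => π x ∈ M ∧ 0 < c x)
    set I : Finset V := (Finset.univ.filter (fun x => Q x)).image π with hI
    have hmemI : ∀ v, v ∈ I ↔ ∃ x, Q x ∧ π x = v := by
      intro v
      simp [hI]
    refine ⟨I, ?_, ?_, fun x => if Q x then c x - 1 else c x, ?_, ?_⟩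
    · intro v hv
      obtain ⟨x, hx, rfl⟩ := (hmemI v).1 hv
      exact (hQP x hx).1
    · intro u hu v hv huv hadj
      obtain ⟨x, hx, rfl⟩ := (hmemI u).1 (Finset.mem_coe.1 hu)
      obtain ⟨y, hy, rfl⟩ := (hmemI v).1 (Finset.mem_coe.1 hv)
      exact (hQi x y hx hy (fun h => huv (by rw [h]))).2 hadj
    · intro v
      beta_reduce
      by_cases hv : v ∈ I
      · rw [if_pos hv]
        obtain ⟨x, hx, hxv⟩ := (hmemI v).1 hv
        have h1 : (∑ y, if π y = v then (if Q y then c y - 1 else c y) else 0) + 1 =
            ∑ y, if π y = v then c y else 0 := by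
          rw [← Finset.add_sum_erase _ _ (Finset.mem_univ x),
            ← Finset.add_sum_erase (f := fun y => if π y = v then c y else 0) _
              (Finset.mem_univ x)]
          have h2 : (∑ y ∈ Finset.univ.erase x,
              if π y = v then (if Q y then c y - 1 else c y) else 0) =
              ∑ y ∈ Finset.univ.erase x, if π y = v then c y else 0 := by
            refine Finset.sum_congr rfl ?_
            intro y hy
            have hyx : y ≠ x := Finset.ne_of_mem_erase hy
            by_cases hyv : π y = v
            · rw [if_pos hyv, if_pos hyv]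
              by_cases hQy : Q y
              · exact absurd (hyv.trans hxv.symm) (hQi y x hQy hx hyx).1
              · rw [if_neg hQy]
            · rw [if_neg hyv, if_neg hyv]
          rw [h2]
          simp only [if_pos hxv, if_pos hx]
          have h3 := (hQP x hx).2
          omega
        rw [hh v, ← h1, Nat.add_sub_cancel]
      · rw [if_neg hv, hh v]
        refine Finset.sum_congr rfl ?_
        intro y _
        by_cases hyv : π y = v
        · rw [if_pos hyv, if_pos hyv]
          by_cases hQy : Q y
          · exact absurd ((hmemI v).2 ⟨y, hQy, hyv⟩) hv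
          · rw [if_neg hQy]
        · rw [if_neg hyv, if_neg hyv]
    · intro x hx
      beta_reduce at hx ⊢
      have hcx : 0 < c x := by
        by_cases hQx : Q x
        · exact (hQP x hQx).2
        · rw [if_neg hQx] at hx
          exact hx
      have h0 := hg x hcx
      have hle : (∑ y, if dom x y then (if Q y then c y - 1 else c y) else 0) ≤
          ∑ y, if dom x y then c y else 0 := by
        refine Finset.sum_le_sum ?_
        intro y _
        split_ifs
        · exact Nat.sub_le _ _
        · exact le_rfl
        · exact le_rfl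
      by_cases hxM : π x ∈ M
      · rw [if_pos hxM]
        obtain ⟨y, hy, hdy⟩ := hQk x ⟨hxM, hcx⟩
        have hlt : (∑ y, if dom x y then (if Q y then c y - 1 else c y) else 0) <
            ∑ y, if dom x y then c y else 0 := by
          refine Finset.sum_lt_sum ?_ ⟨y, Finset.mem_univ y, ?_⟩
          · intro y _
            split_ifs
            · exact Nat.sub_le _ _
            · exact le_rfl
            · exact le_rfl
          · rw [if_pos hdy, if_pos hdy, if_pos hy]
            have := (hQP y hy).2
            omega
        omega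
      · rw [if_neg hxM]
        exact hle.trans h0

/-! ## Extension by a clique bag -/

/-- Add the clique `F`, joined to the vertices in `E`. -/
def extG {V : Type} (G : SimpleGraph V) (E : V → Prop) (F : Type) : SimpleGraph (V ⊕ F) where
  Adj := fun a b => match a, b with
    | Sum.inl u, Sum.inl v => G.Adj u v
    | Sum.inl u, Sum.inr _ => E u
    | Sum.inr _, Sum.inl v => E v
    | Sum.inr f, Sum.inr f' => f ≠ f'
  symm := ⟨by
    rintro (a | a) (b | b) h
    · exact G.adj_symm h
    · exact h
    · exact h
    · exact Ne.symm h⟩
  loopless := ⟨by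
    rintro (a | a) h
    · exact G.loopless.irrefl a h
    · exact h rfl⟩

@[simp] theorem extG_ll {V : Type} (G : SimpleGraph V) (E : V → Prop) (F : Type) (u v : V) :
    (extG G E F).Adj (Sum.inl u) (Sum.inl v) ↔ G.Adj u v := Iff.rfl

@[simp] theorem extG_lr {V : Type} (G : SimpleGraph V) (E : V → Prop) (F : Type) (u : V) (f : F) :
    (extG G E F).Adj (Sum.inl u) (Sum.inr f) ↔ E u := Iff.rfl

@[simp] theorem extG_rl {V : Type} (G : SimpleGraph V) (E : V → Prop) (F : Type) (v : V) (f : F) :
    (extG G E F).Adj (Sum.inr f) (Sum.inl v) ↔ E v := Iff.rfl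

@[simp] theorem extG_rr {V : Type} (G : SimpleGraph V) (E : V → Prop) (F : Type) (f f' : F) :
    (extG G E F).Adj (Sum.inr f) (Sum.inr f') ↔ f ≠ f' := Iff.rfl

/-- Vertex of a class after the extension; the new classes are `(f, true)` (top) and `(f, false)`
(low) for `f : F`. -/
def extPi {V K F : Type} (π : K → V) : K ⊕ (F × Bool) → V ⊕ F
  | Sum.inl x => Sum.inl (π x)
  | Sum.inr p => Sum.inr p.1

/-- Domination after the extension. `top x` is only relevant for classes in the bag `E`. -/
def extDom {V K F : Type} (π : K → V) (dom : K → K → Prop) (E : V → Prop) (top : K → Prop) :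
    K ⊕ (F × Bool) → K ⊕ (F × Bool) → Prop
  | Sum.inl x, Sum.inl y => dom x y
  | Sum.inl x, Sum.inr p => E (π x) ∧ ¬ top x ∧ p.2 = false
  | Sum.inr p, Sum.inl y => E (π y) ∧ (top y ∨ p.2 = true)
  | Sum.inr _, Sum.inr _ => True

theorem IsKer.ext {V K : Type} {G : SimpleGraph V} {π : K → V} {dom : K → K → Prop}
    (hk : IsKer G π dom) {E : V → Prop} (hE : ∀ x y, E (π x) → E (π y) → dom x y)
    (top : K → Prop) (F : Type) :
    IsKer (extG G E F) (extPi π) (extDom (F := F) π dom E top) := by
  classical
  constructor
  · rintro (x | p) (y | p') h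
    · exact hk.same x y (Sum.inl_injective h)
    · simp [extPi] at h
    · simp [extPi] at h
    · trivial
  · intro P
    -- Choose the new class to be used
    by_cases hnew : ∃ p : F × Bool, P (Sum.inr p)
    · by_cases hlow : ∃ f : F, P (Sum.inr (f, false))
      · obtain ⟨f, hf⟩ := hlow
        obtain ⟨Q, hQP, hQi, hQk⟩ := hk.ker (fun x => P (Sum.inl x) ∧ ¬ (E (π x) ∧ ¬ top x))
        by_cases hQE : ∃ x, Q x ∧ E (π x)
        · obtain ⟨x₀, hx₀, hEx₀⟩ := hQE
          have htop : top x₀ := by
            by_contra hnt
            exact (hQP x₀ hx₀).2 ⟨hEx₀, hnt⟩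
          refine ⟨Sum.elim Q (fun _ => False), ?_, ?_, ?_⟩
          · rintro (x | p) hx
            · exact (hQP x hx).1
            · exact hx.elim
          · rintro (x | p) (y | p') hx hy hxy
            · have h1 := hQi x y hx hy (fun h => hxy (by rw [h]))
              exact ⟨fun h => h1.1 (Sum.inl_injective h), h1.2⟩
            · exact hy.elim
            · exact hx.elim
            · exact hx.elim
          · rintro (x | p) hx
            · by_cases hxl : E (π x) ∧ ¬ top x
              · exact ⟨Sum.inl x₀, hx₀, hE x x₀ hxl.1 hEx₀⟩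
              · obtain ⟨y, hy, hxy⟩ := hQk x ⟨hx, hxl⟩
                exact ⟨Sum.inl y, hy, hxy⟩
            · exact ⟨Sum.inl x₀, hx₀, hEx₀, Or.inl htop⟩
        · refine ⟨Sum.elim Q (fun p => p = (f, false)), ?_, ?_, ?_⟩
          · rintro (x | p) hx
            · exact (hQP x hx).1
            · have : p = (f, false) := hx
              rw [this]
              exact hf
          · rintro (x | p) (y | p') hx hy hxy
            · have h1 := hQi x y hx hy (fun h => hxy (by rw [h]))
              exact ⟨fun h => h1.1 (Sum.inl_injective h), h1.2⟩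
            · refine ⟨by simp [extPi], ?_⟩
              intro hadj
              exact hQE ⟨x, hx, hadj⟩
            · refine ⟨by simp [extPi], ?_⟩
              intro hadj
              exact hQE ⟨y, hy, hadj⟩
            · have h1 : p = (f, false) := hx
              have h2 : p' = (f, false) := hy
              exact absurd (by rw [h1, h2]) hxy
          · rintro (x | p) hx
            · by_cases hxl : E (π x) ∧ ¬ top x
              · exact ⟨Sum.inr (f, false), rfl, hxl.1, hxl.2, rfl⟩
              · obtain ⟨y, hy, hxy⟩ := hQk x ⟨hx, hxl⟩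
                exact ⟨Sum.inl y, hy, hxy⟩
            · exact ⟨Sum.inr (f, false), rfl, trivial⟩
      · obtain ⟨p₀, hp₀⟩ := hnew
        have hallT : ∀ p : F × Bool, P (Sum.inr p) → p.2 = true := by
          rintro ⟨f, τ⟩ hp
          cases τ
          · exact absurd ⟨f, hp⟩ hlow
          · rfl
        obtain ⟨Q, hQP, hQi, hQk⟩ := hk.ker (fun x => P (Sum.inl x))
        by_cases hQE : ∃ x, Q x ∧ E (π x)
        · obtain ⟨x₀, hx₀, hEx₀⟩ := hQE
          refine ⟨Sum.elim Q (fun _ => False), ?_, ?_, ?_⟩
          · rintro (x | p) hx
            · exact hQP x hx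
            · exact hx.elim
          · rintro (x | p) (y | p') hx hy hxy
            · have h1 := hQi x y hx hy (fun h => hxy (by rw [h]))
              exact ⟨fun h => h1.1 (Sum.inl_injective h), h1.2⟩
            · exact hy.elim
            · exact hx.elim
            · exact hx.elim
          · rintro (x | p) hx
            · obtain ⟨y, hy, hxy⟩ := hQk x hx
              exact ⟨Sum.inl y, hy, hxy⟩
            · exact ⟨Sum.inl x₀, hx₀, hEx₀, Or.inr (hallT p hx)⟩
        · refine ⟨Sum.elim Q (fun p => p = p₀), ?_, ?_, ?_⟩
          · rintro (x | p) hx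
            · exact hQP x hx
            · have : p = p₀ := hx
              rw [this]
              exact hp₀
          · rintro (x | p) (y | p') hx hy hxy
            · have h1 := hQi x y hx hy (fun h => hxy (by rw [h]))
              exact ⟨fun h => h1.1 (Sum.inl_injective h), h1.2⟩
            · refine ⟨by simp [extPi], ?_⟩
              intro hadj
              exact hQE ⟨x, hx, hadj⟩
            · refine ⟨by simp [extPi], ?_⟩
              intro hadj
              exact hQE ⟨y, hy, hadj⟩
            · have h1 : p = p₀ := hx
              have h2 : p' = p₀ := hy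
              exact absurd (by rw [h1, h2]) hxy
          · rintro (x | p) hx
            · obtain ⟨y, hy, hxy⟩ := hQk x hx
              exact ⟨Sum.inl y, hy, hxy⟩
            · exact ⟨Sum.inr p₀, rfl, trivial⟩
    · obtain ⟨Q, hQP, hQi, hQk⟩ := hk.ker (fun x => P (Sum.inl x))
      refine ⟨Sum.elim Q (fun _ => False), ?_, ?_, ?_⟩
      · rintro (x | p) hx
        · exact hQP x hx
        · exact hx.elim
      · rintro (x | p) (y | p') hx hy hxy
        · have h1 := hQi x y hx hy (fun h => hxy (by rw [h]))
          exact ⟨fun h => h1.1 (Sum.inl_injective h), h1.2⟩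
        · exact hy.elim
        · exact hx.elim
        · exact hx.elim
      · rintro (x | p) hx
        · obtain ⟨y, hy, hxy⟩ := hQk x hx
          exact ⟨Sum.inl y, hy, hxy⟩
        · exact absurd ⟨p, hx⟩ hnew

open Classical in
/-- A kernel system for tokens `g` and demands `h` whose classes in the end bag `E` are split in top
classes (`m` units in total) and low classes (`l` units in total, with a slack of `β`). -/
def Sys {V : Type} [Fintype V] [DecidableEq V] (G : SimpleGraph V) (E : V → Prop)
    (g h : V → ℕ) (m l β : ℕ) : Prop :=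
  ∃ (K : Type) (_ : Fintype K) (π : K → V) (dom : K → K → Prop) (top : K → Prop) (c : K → ℕ),
    IsKer G π dom ∧ (∀ x y, E (π x) → E (π y) → dom x y) ∧
    (∀ v, h v = ∑ x, if π x = v then c x else 0) ∧
    (∑ x, if E (π x) ∧ top x then c x else 0) = m ∧
    (∑ x, if E (π x) ∧ ¬ top x then c x else 0) = l ∧
    ∀ x, 0 < c x →
      (∑ y, if dom x y then c y else 0) + (if E (π x) ∧ ¬ top x then β else 0) ≤ g (π x)

/-- Extension of a system by a clique bag `F` with `cF f true` top and `cF f false` low units at
`f`. -/
theorem Sys.ext {V : Type} [Fintype V] [DecidableEq V] {G : SimpleGraph V} {E : V → Prop}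
    {g h : V → ℕ} {m l β : ℕ} (hs : Sys G E g h m l β) (F : Type) [Fintype F] [DecidableEq F]
    (cF : F × Bool → ℕ) (gF : F → ℕ) (m' l' β' : ℕ)
    (hm' : (∑ f, cF (f, true)) = m') (hl' : (∑ f, cF (f, false)) = l')
    (hβ : l' ≤ β) (hlow : ∀ f, 0 < cF (f, false) → m' + l' + m + β' ≤ gF f)
    (htop : ∀ f, 0 < cF (f, true) → m' + l' + m + l ≤ gF f) :
    Sys (extG G E F) (fun v => Sum.isRight v = true) (Sum.elim g gF)
      (Sum.elim h (fun f => cF (f, true) + cF (f, false))) m' l' β' := by
  classical
  obtain ⟨K, iK, π, dom, top, c, hk, hE, hh, hm, hl, hg⟩ := hs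
  have hsumE : (∑ x, if E (π x) then c x else 0) = m + l := by
    rw [← hm, ← hl, ← Finset.sum_add_distrib]
    refine Finset.sum_congr rfl ?_
    intro x _
    by_cases h1 : E (π x) <;> by_cases h2 : top x <;> simp [h1, h2]
  have hsumF : (∑ p : F × Bool, cF p) = m' + l' := by
    rw [Fintype.sum_prod_type, ← hm', ← hl', ← Finset.sum_add_distrib]
    refine Finset.sum_congr rfl ?_
    intro f _
    rw [Fintype.sum_bool]
  refine ⟨K ⊕ (F × Bool), inferInstance, extPi π, extDom π dom E top,
    Sum.elim (fun _ => True) (fun p => p.2 = true), Sum.elim c cF, hk.ext hE top F, ?_, ?_, ?_,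
    ?_, ?_⟩
  · rintro (x | p) (y | p') h1 h2
    · simp [extPi] at h1
    · simp [extPi] at h1
    · simp [extPi] at h2
    · trivial
  · rintro (v | f)
    · rw [Fintype.sum_sum_type]
      simp only [extPi, Sum.elim_inl, Sum.elim_inr, Sum.inl.injEq, reduceCtorEq, if_false,
        Finset.sum_const_zero, add_zero]
      exact hh v
    · rw [Fintype.sum_sum_type]
      simp only [extPi, Sum.elim_inl, Sum.elim_inr, Sum.inr.injEq, reduceCtorEq, if_false,
        Finset.sum_const_zero, zero_add]
      rw [Fintype.sum_prod_type]
      rw [Finset.sum_eq_single f]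
      · simp
      · intro f' _ hf'
        simp [hf']
      · intro hf
        exact absurd (Finset.mem_univ _) hf
  · rw [Fintype.sum_sum_type]
    simp only [extPi, Sum.elim_inl, Sum.elim_inr, Sum.isRight_inl, Sum.isRight_inr,
      Bool.false_eq_true, false_and, if_false, Finset.sum_const_zero, zero_add, true_and]
    rw [Fintype.sum_prod_type, ← hm']
    refine Finset.sum_congr rfl ?_
    intro f _
    simp
  · rw [Fintype.sum_sum_type]
    simp only [extPi, Sum.elim_inl, Sum.elim_inr, Sum.isRight_inl, Sum.isRight_inr,
      Bool.false_eq_true, false_and, if_false, Finset.sum_const_zero, zero_add, true_and]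
    rw [Fintype.sum_prod_type, ← hl']
    refine Finset.sum_congr rfl ?_
    intro f _
    simp
  · rintro (x | ⟨f, τ⟩) hx
    · have h1 := hg x hx
      have e1 : (∑ y : K, if extDom (F := F) π dom E top (Sum.inl x) (Sum.inl y) then
          Sum.elim c cF (Sum.inl y) else 0) = ∑ y, if dom x y then c y else 0 := by
        refine Finset.sum_congr rfl ?_
        intro y _
        exact if_congr Iff.rfl rfl rfl
      have e2 : (∑ p : F × Bool, if extDom (F := F) π dom E top (Sum.inl x) (Sum.inr p) then
          Sum.elim c cF (Sum.inr p) else 0) ≤ if E (π x) ∧ ¬ top x then β else 0 := by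
        by_cases hxl : E (π x) ∧ ¬ top x
        · rw [if_pos hxl]
          refine le_trans (le_of_eq ?_) hβ
          rw [Fintype.sum_prod_type, ← hl']
          refine Finset.sum_congr rfl ?_
          intro f _
          rw [Fintype.sum_bool, if_neg (fun h => by simpa using h.2.2),
            if_pos ⟨hxl.1, hxl.2, rfl⟩, zero_add]
          rfl
        · rw [if_neg hxl]
          refine le_of_eq ?_
          refine Finset.sum_eq_zero ?_
          intro p _
          exact if_neg (fun h => hxl ⟨h.1, h.2.1⟩)
      have e4 : Sum.elim g gF (extPi (F := F) π (Sum.inl x)) = g (π x) := rfl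
      rw [Fintype.sum_sum_type, e1, e4]
      rw [if_neg (c := (fun v : V ⊕ F => Sum.isRight v = true) (extPi π (Sum.inl x)) ∧ _)
        (fun h => absurd h.1 (by simp [extPi]))]
      omega
    · have e1 : (∑ p : F × Bool, if extDom (F := F) π dom E top (Sum.inr (f, τ)) (Sum.inr p) then
          Sum.elim c cF (Sum.inr p) else 0) = m' + l' := by
        rw [← hsumF]
        refine Finset.sum_congr rfl ?_
        intro p _
        exact if_pos trivial
      have e4 : Sum.elim g gF (extPi (F := F) π (Sum.inr (f, τ))) = gF f := rfl
      cases τ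
      · have h1 := hlow f hx
        have e2 : (∑ y : K, if extDom (F := F) π dom E top (Sum.inr (f, false)) (Sum.inl y) then
            Sum.elim c cF (Sum.inl y) else 0) = m := by
          rw [← hm]
          refine Finset.sum_congr rfl ?_
          intro y _
          refine if_congr ?_ rfl rfl
          constructor
          · rintro ⟨h2, h3⟩
            rcases h3 with h3 | h3
            · exact ⟨h2, h3⟩
            · exact absurd h3 (by simp)
          · rintro ⟨h2, h3⟩
            exact ⟨h2, Or.inl h3⟩
        rw [Fintype.sum_sum_type, e1, e2, e4]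
        rw [if_pos (c := (fun v : V ⊕ F => Sum.isRight v = true) (extPi π (Sum.inr (f, false))) ∧
          ¬ Sum.elim (fun _ : K => True) (fun p : F × Bool => p.2 = true)
              (Sum.inr (f, false))) ⟨rfl, by simp⟩]
        omega
      · have h1 := htop f hx
        have e2 : (∑ y : K, if extDom (F := F) π dom E top (Sum.inr (f, true)) (Sum.inl y) then
            Sum.elim c cF (Sum.inl y) else 0) = m + l := by
          rw [← hsumE]
          refine Finset.sum_congr rfl ?_
          intro y _
          refine if_congr ?_ rfl rfl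
          exact ⟨fun h2 => h2.1, fun h2 => ⟨h2, Or.inr rfl⟩⟩
        rw [Fintype.sum_sum_type, e1, e2, e4]
        rw [if_neg (c := (fun v : V ⊕ F => Sum.isRight v = true) (extPi π (Sum.inr (f, true))) ∧
          ¬ Sum.elim (fun _ : K => True) (fun p : F × Bool => p.2 = true)
              (Sum.inr (f, true))) (by simp)]
        omega

/-- End of the chain: no top units, low slack `β`; then the tokens in the bag can be reduced. -/
theorem Sys.win {V : Type} [Fintype V] [DecidableEq V] {G : SimpleGraph V} {E : V → Prop}
    [DecidablePred E] {g h : V → ℕ} {l β : ℕ} (hs : Sys G E g h 0 l β) :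
    Win G (fun v => if E v then g v - β else g v) h := by
  classical
  obtain ⟨K, iK, π, dom, top, c, hk, hE, hh, hm, hl, hg⟩ := hs
  refine win_of_ker hk c _ h hh ?_
  intro x hx
  have h1 := hg x hx
  by_cases hxE : E (π x)
  · have htop : ¬ top x := by
      intro ht
      have h2 := (Finset.sum_eq_zero_iff_of_nonneg (fun _ _ => Nat.zero_le _)).1 hm x
        (Finset.mem_univ x)
      rw [if_pos ⟨hxE, ht⟩] at h2
      omega
    rw [if_pos ⟨hxE, htop⟩] at h1
    simp only [if_pos hxE]
    omega
  · simp only [if_neg hxE]
    omega

end Helper122.SFP
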