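import Pool.Agent.Helper122_SFP.Hubs
import Pool.Agent.Helper122_SFP.Final

/-!
# Tails of alternating bags of sizes one and two
-/

set_option autoImplicit false
set_option linter.unusedSectionVars false
set_option linter.unusedVariables false

namespace Helper122.SFP

open Finset

/-- Add a vertex joined to the bag `E`, and an edge (two vertices) joined to it. -/
def blockG {V : Type} (G : SimpleGraph V) (E : V → Prop) : SimpleGraph ((V ⊕ Unit) ⊕ Fin 2) :=
  extG (extG G E Unit) (fun v => Sum.isRight v = true) (Fin 2)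

theorem Sys.block {V : Type} [Fintype V] [DecidableEq V] {G : SimpleGraph V} {E : V → Prop}
    {g h : V → ℕ} {b t m β m₁ β₁ : ℕ} (hs : Sys G E g h m (b + β) β) (hm : m + β = b)
    (hm₁ : m₁ + β₁ = b) (hmm : m ≤ m₁ + t) :
    Sys (blockG G E) (fun v => Sum.isRight v = true)
      (Sum.elim (Sum.elim g (fun _ => 3 * b + t)) (fun _ => 3 * b + t))
      (Sum.elim (Sum.elim h (fun _ => b)) (fun _ => b)) m₁ (b + β₁) β₁ := by
  have h1 := hs.ext Unit (fun p => if p.2 = true then m else β) (fun _ => 3 * b + t) m β
    (b + β₁) (by simp) (by simp) le_rfl (by intro f _; omega) (by intro f _; omega)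
  have h2 := h1.ext (Fin 2) (fun p => if p.1 = 0 then (if p.2 = true then m₁ else β₁) else
    (if p.2 = true then 0 else b)) (fun _ => 3 * b + t) m₁ (b + β₁) β₁ (by simp)
    (by simp [add_comm]) le_rfl (by intro f _; omega) (by intro f _; omega)
  have e1 : (fun f : Unit => (if ((f, true) : Unit × Bool).2 = true then m else β) +
      if ((f, false) : Unit × Bool).2 = true then m else β) = fun _ => b := by
    funext f
    simp [hm]
  have e2 : (fun f : Fin 2 => (if ((f, true) : Fin 2 × Bool).1 = 0 then
      (if ((f, true) : Fin 2 × Bool).2 = true then m₁ else β₁) else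
      (if ((f, true) : Fin 2 × Bool).2 = true then 0 else b)) +
      if ((f, false) : Fin 2 × Bool).1 = 0 then
      (if ((f, false) : Fin 2 × Bool).2 = true then m₁ else β₁) else
      (if ((f, false) : Fin 2 × Bool).2 = true then 0 else b)) = fun _ => b := by
    funext f
    fin_cases f <;> simp [hm₁]
  rw [e2] at h2
  rw [e1] at h2
  exact h2

/-- `X` is the set of colours used in the bag `E`. -/
def Bag {V : Type} (C : V → Finset ℕ) (E : V → Prop) (X : Finset ℕ) : Prop :=
  ∀ c, c ∈ X ↔ ∃ v, E v ∧ c ∈ C v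

theorem block_lo {V : Type} {G : SimpleGraph V} {E : V → Prop} {L W X : Finset ℕ} {b i : ℕ}
    {C : (V ⊕ Unit) ⊕ Fin 2 → Finset ℕ} (hC : Col (blockG G E) L b C) (hW : W ⊆ L)
    (hX : Bag (fun v => C (Sum.inl (Sum.inl v))) E X) (hX2 : X.card = 2 * b)
    (hXW : (X ∩ W).card + 3 * i * b ≤ i * L.card) :
    ∃ X', Bag C (fun v => Sum.isRight v = true) X' ∧ X'.card = 2 * b ∧
      (X' ∩ W).card + 3 * (i + 1) * b ≤ (i + 1) * L.card := by
  obtain ⟨hsub, hdis⟩ := hC
  have h01 : Disjoint (C (Sum.inr 0)) (C (Sum.inr 1)) := hdis _ _ (by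
    show (extG (extG G E Unit) (fun v => Sum.isRight v = true) (Fin 2)).Adj _ _
    simp)
  have hB : ∀ f : Fin 2, Disjoint (C (Sum.inl (Sum.inr ()))) (C (Sum.inr f)) := fun f =>
    hdis _ _ (by
      show (extG (extG G E Unit) (fun v => Sum.isRight v = true) (Fin 2)).Adj _ _
      simp)
  have hBX : Disjoint (C (Sum.inl (Sum.inr ()))) X := by
    rw [Finset.disjoint_left]
    intro c hc hcX
    obtain ⟨v, hv, hcv⟩ := (hX c).1 hcX
    have : Disjoint (C (Sum.inl (Sum.inr ()))) (C (Sum.inl (Sum.inl v))) := hdis _ _ (by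
      show (extG (extG G E Unit) (fun v => Sum.isRight v = true) (Fin 2)).Adj _ _
      simpa using hv)
    exact Finset.disjoint_left.1 this hc hcv
  have hXL : X ⊆ L := by
    intro c hc
    obtain ⟨v, hv, hcv⟩ := (hX c).1 hc
    exact (hsub _).1 hcv
  refine ⟨C (Sum.inr 0) ∪ C (Sum.inr 1), ?_, ?_, ?_⟩
  · intro c
    rw [Finset.mem_union]
    constructor
    · rintro (h | h)
      · exact ⟨_, rfl, h⟩
      · exact ⟨_, rfl, h⟩
    · rintro ⟨v, hv, hc⟩
      rcases v with v | f
      · simp at hv
      · fin_cases f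
        · exact Or.inl hc
        · exact Or.inr hc
  · rw [Finset.card_union_of_disjoint h01, (hsub _).2, (hsub _).2]
    ring
  · set B := C (Sum.inl (Sum.inr ())) with hBdef
    set X' := C (Sum.inr 0) ∪ C (Sum.inr 1) with hX'def
    have hBX' : Disjoint B X' := Finset.disjoint_union_right.2 ⟨hB 0, hB 1⟩
    have e1 : (X' ∩ W).card + (B ∩ W).card ≤ W.card := by
      rw [← Finset.card_union_of_disjoint]
      · exact Finset.card_le_card (Finset.union_subset Finset.inter_subset_right
          Finset.inter_subset_right)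
      · exact (hBX'.symm.mono_left Finset.inter_subset_left).mono_right Finset.inter_subset_left
    have e2 : (B \ W).card + (X \ W).card + W.card ≤ L.card := by
      rw [← Finset.card_union_of_disjoint
        ((hBX.mono_left Finset.sdiff_subset).mono_right Finset.sdiff_subset),
        ← Finset.card_union_of_disjoint]
      · exact Finset.card_le_card (Finset.union_subset (Finset.union_subset
          (Finset.sdiff_subset.trans (hsub _).1) (Finset.sdiff_subset.trans hXL)) hW)
      · exact Finset.disjoint_union_left.2 ⟨Finset.sdiff_disjoint, Finset.sdiff_disjoint⟩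
    have e3 : (B \ W).card + (B ∩ W).card = b := by
      rw [Finset.card_sdiff_add_card_inter, (hsub _).2]
    have e4 : (X \ W).card + (X ∩ W).card = 2 * b := by
      rw [Finset.card_sdiff_add_card_inter, hX2]
    have e5 : 3 * (i + 1) * b = 3 * i * b + 3 * b := by ring
    have e6 : (i + 1) * L.card = i * L.card + L.card := by ring
    omega

/-- The tail of length `i` attached to a core. -/
theorem tail {V₀ : Type} [Fintype V₀] [DecidableEq V₀] (G₀ : SimpleGraph V₀) (E₀ : V₀ → Prop)
    (i : ℕ) :
    ∃ (V : Type) (_ : Fintype V) (_ : DecidableEq V) (G : SimpleGraph V) (E : V → Prop)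
      (ι : V₀ ↪ V), (∀ u v, G₀.Adj u v → G.Adj (ι u) (ι v)) ∧
      (∀ v, E v → (∃ u, E₀ u ∧ ι u = v) ∨ ∀ u, ι u ≠ v) ∧
      (∀ (b t k : ℕ) (g₀ h₀ : V₀ → ℕ) (g h : V → ℕ),
        Sys G₀ E₀ g₀ h₀ (min ((k + i) * t) b) (b + (b - min ((k + i) * t) b))
          (b - min ((k + i) * t) b) →
        (∀ v, g (ι v) = g₀ v) → (∀ v, (∀ u, ι u ≠ v) → g v = 3 * b + t) →
        (∀ v, h (ι v) = h₀ v) → (∀ v, (∀ u, ι u ≠ v) → h v = b) →
        Sys G E g h (min (k * t) b) (b + (b - min (k * t) b)) (b - min (k * t) b)) ∧
      ∀ (L W X₀ : Finset ℕ) (b : ℕ) (C : V → Finset ℕ), Col G L b C → W ⊆ L →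
        Bag (fun v => C (ι v)) E₀ X₀ → X₀.card = 2 * b → Disjoint X₀ W →
        ∃ X, Bag C E X ∧ X.card = 2 * b ∧ (X ∩ W).card + 3 * i * b ≤ i * L.card := by
  induction i with
  | zero =>
    refine ⟨V₀, inferInstance, inferInstance, G₀, E₀, Function.Embedding.refl V₀, ?_, ?_, ?_, ?_⟩
    · intro u v h
      exact h
    · intro v hv
      exact Or.inl ⟨v, hv, rfl⟩
    · intro b t k g₀ h₀ g h hs hg _ hh _
      have e1 : g = g₀ := funext hg
      have e2 : h = h₀ := funext hh
      rw [e1, e2]
      exact hs
    · intro L W X₀ b C hC hW hX h2 hdis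
      refine ⟨X₀, hX, h2, ?_⟩
      rw [Finset.disjoint_iff_inter_eq_empty.1 hdis]
      simp
  | succ i ih =>
    obtain ⟨V, _, _, G, E, ι, hadj, hE, hup, hlo⟩ := ih
    refine ⟨(V ⊕ Unit) ⊕ Fin 2, inferInstance, inferInstance, blockG G E,
      fun v => Sum.isRight v = true, ι.trans (Function.Embedding.inl.trans
        Function.Embedding.inl), ?_, ?_, ?_, ?_⟩
    · intro u v h
      exact hadj u v h
    · intro v hv
      right
      intro u hu
      rw [← hu] at hv
      simp at hv
    · intro b t k g₀ h₀ g h hs hg hg' hh hh'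
      have e0 : k + (i + 1) = k + 1 + i := by ring
      rw [e0] at hs
      have h1 := hup b t (k + 1) g₀ h₀ (fun v => g (Sum.inl (Sum.inl v)))
        (fun v => h (Sum.inl (Sum.inl v))) hs hg (by
          intro v hv
          refine hg' _ ?_
          intro u hu
          exact hv u (Sum.inl_injective (Sum.inl_injective hu))) hh (by
          intro v hv
          refine hh' _ ?_
          intro u hu
          exact hv u (Sum.inl_injective (Sum.inl_injective hu)))
      have h2 := h1.block (t := t) (m₁ := min (k * t) b) (β₁ := b - min (k * t) b) (by omega)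
        (by omega) (by
          have : (k + 1) * t = k * t + t := by ring
          rw [this]
          omega)
      have e1 : g = Sum.elim (Sum.elim (fun v => g (Sum.inl (Sum.inl v)))
          (fun _ => 3 * b + t)) (fun _ => 3 * b + t) := by
        funext v
        rcases v with (v | v) | v
        · rfl
        · exact hg' _ (fun u hu => by simp at hu)
        · exact hg' _ (fun u hu => by simp at hu)
      have e2 : h = Sum.elim (Sum.elim (fun v => h (Sum.inl (Sum.inl v)))
          (fun _ => b)) (fun _ => b) := by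
        funext v
        rcases v with (v | v) | v
        · rfl
        · exact hh' _ (fun u hu => by simp at hu)
        · exact hh' _ (fun u hu => by simp at hu)
      rw [e1, e2]
      exact h2
    · intro L W X₀ b C hC hW hX h2 hdis
      obtain ⟨X, hX', hX2, hXW⟩ := hlo L W X₀ b (fun v => C (Sum.inl (Sum.inl v)))
        ⟨fun v => hC.1 _, fun u v huv => hC.2 _ _ huv⟩ hW hX h2 hdis
      exact block_lo hC hW hX' hX2 hXW

end Helper122.SFP
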