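import Pool.Agent.Helper122_SFP.Pieces

/-!
# Painter wins on the four pieces
-/

set_option autoImplicit false

namespace Helper122.SFP

theorem winA (b t : ℕ) (htb : t ≤ b) :
    Win (gOf 4 edgesA) ![b + (b - t), 2 * b + t, 2 * b + t, b] ![b, b, b, b] := by
  refine maskA ![b, b, t, b - t, b] _ _ ?_ ?_
  · intro v
    fin_cases v <;> simp [AA]
    omega
  · intro x _
    fin_cases x <;> simp [DA, piA] <;> omega

theorem winB (b t δ : ℕ) (htb : t ≤ b) (hδ : δ ≤ t) (hb : b ≤ t + δ) :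
    Win (gOf 5 edgesB) ![b, 2 * b + t, 2 * b + t, 2 * b + t, b + δ] ![b, b, t + δ, b, b] := by
  refine maskB ![b, δ, b - δ, t, δ, b - δ, t + δ - b, b - t, δ, b - δ] _ _ ?_ ?_
  · intro v
    fin_cases v <;> simp [AB] <;> omega
  · intro x _
    fin_cases x <;> simp [DB, piB] <;> omega

theorem winC (b t δ δ' : ℕ) (htb : t ≤ b) (hδ : δ ≤ t) (hδ' : δ' ≤ t) (hb : b ≤ 2 * t)
    (hz : b + δ' ≤ 2 * t + δ) :
    Win (gOf 7 edgesC) ![b, 2 * b + t, 2 * b + t, 2 * b + t, 2 * b + t, 2 * b + t, b + δ]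
      ![b, b, b, b + δ', b, b, b] := by
  refine maskC ![b, b, t, b - t, b + δ', b - t, 2 * t - b, b - t, δ, b - δ, b] _ _ ?_ ?_
  · intro v
    fin_cases v <;> simp [AC] <;> omega
  · intro x _
    fin_cases x <;> simp [DC, piC] <;> omega

theorem winT (b t δ' : ℕ) (htb : t ≤ b) (hδ' : δ' ≤ t) (hb : b ≤ 2 * t)
    (hz : b + δ' ≤ 2 * t) :
    Win (gOf 6 edgesT) ![b, 2 * b + t, 2 * b + t, 2 * b + t, 2 * b + t, 2 * b + t]
      ![b, b, b, b + δ', b, b] := by
  refine maskT ![b, b, t, b - t, b + δ', b - t, 2 * t - b, b - t, b] _ _ ?_ ?_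
  · intro v
    fin_cases v <;> simp [AT] <;> omega
  · intro x _
    fin_cases x <;> simp [DT, piT] <;> omega

end Helper122.SFP
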